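import Pool.Agent.P.MP_6f117a_ag.H.Segre

/-! Smooth hypersurfaces of large bidegree are of general type. -/

set_option autoImplicit false

namespace Pool.Agent.P.MP_6f117a_ag.H

open MvPolynomial PJ Sum Module

universe u

variable {L K : Type u} [Field L] [Field K] [Algebra L K] {σ τ : Type}

theorem prop_gen {β : Type} [Fintype β] [DecidableEq β] (A : Matrix β β K) (r : β) (g : β → K)
    (h : ∀ l, l ≠ r → ∑ b, A l b * g b = 0) (j b : β) :
    (A.updateRow r (Pi.single j 1)).det * g b = g j * (A.updateRow r (Pi.single b 1)).det := by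
  have h1 : (A.updateRow r (Pi.single j 1)).mulVec g = Pi.single r (g j) := by
    funext l
    by_cases e : l = r
    · simp [e, Matrix.mulVec]
    · simpa [e, Matrix.mulVec, dotProduct] using h l e
  have h2 := congrFun (congrArg (A.updateRow r (Pi.single j 1)).adjugate.mulVec h1) b
  rw [Matrix.mulVec_mulVec, Matrix.adjugate_mul, Matrix.smul_mulVec, Matrix.one_mulVec,
    Matrix.mulVec_single, Pi.smul_apply, smul_eq_mul] at h2
  rw [h2, mul_comm]
  simp only [Pi.smul_apply, Matrix.col_apply, MulOpposite.smul_eq_mul_unop, MulOpposite.unop_op,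
    Matrix.adjugate_apply, Matrix.updateRow_idem]

variable [Fintype σ] [Fintype τ] [DecidableEq σ] [DecidableEq τ] {D : ℕ}
  (δ : Fin D → Derivation L K K) (y : σ ⊕ τ → K) (e₀ : Fin D ⊕ Fin 3 ≃ σ ⊕ τ)

/-- The derivatives of the point and the two Euler vectors. -/
def mat : Matrix (σ ⊕ τ) (σ ⊕ τ) K := Matrix.of fun l b =>
  Sum.elim (fun a => δ a (y b)) ![0, wa b * y b, wb b * y b] (e₀.symm l)

/-- The determinant with a coordinate vector in the free row. -/
noncomputable def dt (c : σ ⊕ τ) : K :=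
  ((mat δ y e₀).updateRow (e₀ (inr 0)) (Pi.single c 1)).det

theorem dt_prop {d k : ℕ} {Φ : MvPolynomial (σ ⊕ τ) L} (h : Data d k Φ y) (j b : σ ⊕ τ) :
    dt δ y e₀ j * aeval y (pderiv b Φ) = aeval y (pderiv j Φ) * dt δ y e₀ b := by
  refine prop_gen _ _ (fun b => aeval y (pderiv b Φ)) (fun l hl => ?_) j b
  obtain ⟨a | t, rfl⟩ := e₀.surjective l
  · have := Mid.JacA.chain (δ a) y Φ
    rw [h.on, map_zero] at this
    simpa [mat, mul_comm] using this.symm
  · fin_cases t
    · exact absurd rfl hl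
    · simpa [mat] using weuler h.bi.1 y h.on
    · simpa [mat] using weuler h.bi.2 y h.on

theorem dt_eq (e : Fin D ⊕ Fin 3 ≃ σ ⊕ τ) {i : σ} {j : τ} (h1 : e (inr 1) = inl i)
    (h2 : e (inr 2) = inr j) (hi : y (inl i) ≠ 0) (hj : y (inr j) ≠ 0) :
    ∃ s : ℤ, s * s = 1 ∧ dt δ y e₀ (e (inr 0)) * y (piv i j (e (inr 0))) =
      s * (y (inl i) ^ Fintype.card σ * y (inr j) ^ Fintype.card τ) *
        (Matrix.of fun a b => δ a (y (e (inl b)) / y (piv i j (e (inl b))))).det := by
  set c := e (inr 0) with hc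
  have n1 : inl i ≠ c := by rw [← h1, hc, Ne, e.injective.eq_iff]; simp
  have n2 : inr j ≠ c := by rw [← h2, hc, Ne, e.injective.eq_iff]; simp
  have key : ((mat δ y e₀).updateRow (e₀ (inr 0)) (Pi.single c 1)).reindex e₀.symm e.symm =
      Matrix.fromBlocks (Matrix.of fun a b => y (piv i j (e (inl b))) *
          Matrix.of (fun a b => δ a (y (e (inl b)) / y (piv i j (e (inl b))))) a b)
        (Matrix.of fun a t => δ a (y (e (inr t)))) 0
        !![1, 0, 0; wa c * y c, y (inl i), 0; wb c * y c, 0, y (inr j)] *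
      Matrix.fromBlocks 1 0 (Matrix.of fun t b => ![0, wa (e (inl b)) * y (e (inl b)) / y (inl i),
        wb (e (inl b)) * y (e (inl b)) / y (inr j)] t) 1 := by
    rw [Matrix.fromBlocks_multiply]
    ext (a | t) (b | t')
    · simp only [mat, Matrix.updateRow_apply, Matrix.mul_apply, Fin.sum_univ_three, h1, h2,
        Matrix.reindex_apply, Matrix.submatrix_apply, Equiv.symm_symm, Equiv.symm_apply_apply,
        EmbeddingLike.apply_eq_iff_eq, reduceCtorEq, if_false, Matrix.of_apply, Sum.elim_inl,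
        Matrix.mul_one, Matrix.fromBlocks_apply₁₁, Matrix.add_apply]
      obtain i' | j' := e (inl b)
      · have := (δ a).leibniz (y (inl i)) (y (inl i') / y (inl i))
        rw [mul_div_cancel₀ _ hi] at this
        simp [wa, wb, piv, this, mul_comm]
      · have := (δ a).leibniz (y (inr j)) (y (inr j') / y (inr j))
        rw [mul_div_cancel₀ _ hj] at this
        simp [wa, wb, piv, this, mul_comm]
    · simp [mat, Matrix.updateRow_apply]
    · have n3 : e (inl b) ≠ c := by rw [hc, Ne, e.injective.eq_iff]; simp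
      fin_cases t <;>
        simp [mat, Matrix.updateRow_apply, Matrix.vecHead, Matrix.vecTail, n3,
          mul_div_cancel₀ _ hi, mul_div_cancel₀ _ hj]
    · fin_cases t <;> fin_cases t' <;>
        simp [mat, Matrix.updateRow_apply, h1, h2, ← hc, n1, n2, wa, wb]
  have h3 := congrArg Matrix.det key
  rw [Matrix.det_reindex, Matrix.det_mul, Matrix.det_fromBlocks_zero₂₁,
    Matrix.det_fromBlocks_zero₁₂, Matrix.det_mul_row, Matrix.det_one, Matrix.det_one,
    Matrix.det_fin_three] at h3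
  have h4 : (∏ b, y (piv i j (e (inl b)))) * (y (piv i j c) * y (inl i) * y (inr j)) =
      y (inl i) ^ Fintype.card σ * y (inr j) ^ Fintype.card τ := by
    have := e.prod_comp fun v => y (piv i j v)
    rw [Fintype.prod_sum_type, Fintype.prod_sum_type, Fin.prod_univ_three, h1, h2] at this
    simpa [piv] using this
  set s := Equiv.Perm.sign (e.symm.trans e₀.symm.symm)
  have h5 : (s : ℤ) * s = 1 := by rw [← Units.val_mul, Int.units_mul_self, Units.val_one]
  have h6 : ((s : ℤ) : K) * (s : ℤ) = 1 := by exact_mod_cast congrArg (Int.cast : ℤ → K) h5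
  refine ⟨s, h5, ?_⟩
  simp only [Matrix.of_apply, Matrix.cons_val', Matrix.cons_val_zero, Matrix.cons_val_one,
    Matrix.cons_val_two, Matrix.cons_val_fin_one, Matrix.head_cons, Matrix.tail_cons,
    Matrix.empty_val', Matrix.head_fin_const] at h3
  rw [← h4, dt]
  linear_combination (s : ℤ) * y (piv i j c) * h3 -
    ((mat δ y e₀).updateRow (e₀ (inr 0)) (Pi.single c 1)).det * y (piv i j c) * h6

theorem seg_genType [CharZero L] {d k M : ℕ} {Φ : MvPolynomial (σ ⊕ τ) L} (h : Data d k Φ y)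
    (hd : Fintype.card σ < d) (hk : Fintype.card τ < k) (hy : ∃ v, aeval y (pderiv v Φ) ≠ 0)
    {i₀ : σ} {j₀ : τ} (h1 : e₀ (inr 1) = inl i₀) (h2 : e₀ (inr 2) = inr j₀) (hi : y (inl i₀) = 1)
    (hj : y (inr j₀) = 1) (hb : IsTranscendenceBasis L fun a => y (e₀ (inl a)))
    (ht : IntermediateField.adjoin L (Set.range y) = ⊤) (ε : Fin M ≃ σ × τ) :
    SmoothModel L D (seg ε y) ∧ BigCan L D (seg ε y) := by
  have z0 : seg ε y (ε.symm (i₀, j₀)) = 1 := by simp [seg, hi, hj]
  refine ⟨⟨fun e => one_ne_zero (z0.symm.trans (congrFun e _)), top_le_iff.1 (ht ▸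
    IntermediateField.adjoin.mono _ _ _ ?_), by simpa using hb.lift_cardinalMk_eq_trdeg.symm,
    fun a ha => jac ε h (by simpa using Fintype.card_congr e₀) ha⟩, ?_⟩
  · rintro _ ⟨v, rfl⟩
    refine ⟨ren ε i₀ j₀ v, ε.symm (i₀, j₀), ?_⟩
    cases v <;> simp [seg, ren, hi, hj]
  obtain ⟨δ, hδ, -⟩ := exists_basis_der (L := L) _ hb
  obtain ⟨c₁, hc₁⟩ := hy
  set η := dt δ y e₀ c₁ / aeval y (pderiv c₁ Φ) with hη
  have eη : ∀ c, η * aeval y (pderiv c Φ) = dt δ y e₀ c := fun c => by
    rw [hη, div_mul_eq_mul_div, dt_prop δ y e₀ h, mul_div_cancel_left₀ _ hc₁]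
  have η0 : η ≠ 0 := by
    obtain ⟨s, s1, s2⟩ := dt_eq δ y e₀ e₀ h1 h2 (hi ▸ one_ne_zero) (hj ▸ one_ne_zero)
    have e2 : (Matrix.of fun a b => δ a (y (e₀ (inl b)) / y (piv i₀ j₀ (e₀ (inl b))))) = 1 := by
      ext a b
      have : y (piv i₀ j₀ (e₀ (inl b))) = 1 := by cases e₀ (inl b) <;> assumption
      rw [Matrix.of_apply, this, div_one, Matrix.one_apply]
      exact (hδ a b).trans (if_congr eq_comm rfl rfl)
    intro e
    rw [← eη, e, e2, hi, hj] at s2
    have : (s : K) * s = 1 := by exact_mod_cast congrArg (Int.cast : ℤ → K) s1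
    have s3 : (s : K) = 0 := by simpa using s2.symm
    simp [s3] at this
  have key : ∀ v, η * y v ∈ canSec L (seg ε y) δ 1 := fun v a ha => by
    obtain ⟨i, j, c, a0, a1, a2, a3, a4, a5⟩ := chart ε h ha
    obtain ⟨π, hπ⟩ := Equiv.Perm.exists_extending_pair (f := fun t : Fin 3 => e₀ (inr t))
      (g := ![c, inl i, inr j]) (e₀.injective.comp inr_injective) (by
        intro t t'
        fin_cases t <;> fin_cases t' <;> simp [a3, a4, a3.symm, a4.symm])
    obtain ⟨s, -, s2⟩ := dt_eq δ y e₀ (e₀.trans π) (hπ 1) (hπ 2) a1 a2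
    rw [show (e₀.trans π) (inr 0) = c from hπ 0] at s2
    have np : ∀ v, eval (a ∘ ren ε i j) (X (piv i j v)) ≠ 0 := fun v => by
      cases v <;> simpa [piv, ren] using a0
    have b1 := wa_le v
    have b2 := wb_le v
    have hQ := h.bi.der (by omega) (by omega) i j c
    have hq : eval (a ∘ ren ε i j) (X (piv i j c) * pderiv c Φ) ≠ 0 := by
      rw [map_mul]
      exact mul_ne_zero (np c) a5
    have n2 : aeval y (X (piv i j c) * pderiv c Φ) ≠ 0 := fun e => hq (by
      rw [← eval_rename]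
      exact ha.2 _ ⟨⟨_, hQ.hom.rename_isHomogeneous⟩, by
        rw [aeval_ren ε y i j hQ, e, mul_zero, mul_zero]⟩)
    refine AddSubgroup.subset_closure ⟨_, fun _ b => y ((e₀.trans π) (inl b)) /
      y (piv i j ((e₀.trans π) (inl b))), mem_loc ε y a1 a2 (((((bi_C (s : L)).mul (bi_X v)).mul
        (bi_pow i₀ j₀ (d - Fintype.card σ - wa v) (k - Fintype.card τ - wb v))).mul
        (bi_pow i j (Fintype.card σ) (Fintype.card τ))).cast (by omega) (by omega)) hQ hq,
      fun _ b => by simpa using mem_loc ε y a1 a2 (bi_X _) (bi_piv i j _) (np _), ?_⟩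
    rw [eq_comm, div_mul_eq_mul_div, div_eq_iff n2]
    simp only [map_mul, map_pow, aeval_X, map_intCast, hi, hj, one_pow, mul_one,
      Fin.prod_univ_one]
    linear_combination -y v * s2 - y v * y (piv i j c) * eη c
  refine ⟨δ, 1, η * y (inl i₀), fun a => η * y (e₀ (inl a)), one_pos, by simpa [hi] using η0,
    key _, fun a => key _, ?_⟩
  simp only [hi, mul_one, mul_div_cancel_left₀ _ η0]
  exact hb.1

end Pool.Agent.P.MP_6f117a_ag.H
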