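import Pool.Agent.P.MP_6f117a_ag.H.Prime

/-! A spanning family of forms whose zero sets meet transversally. -/

set_option autoImplicit false

namespace Pool.Agent.P.MP_6f117a_ag.H

open MvPolynomial

universe u

theorem wscale {R A β : Type*} [CommRing R] [CommRing A] [Algebra R A] {w : β → ℕ}
    {P : MvPolynomial β R} {e : ℕ} (h : P.IsWeightedHomogeneous w e) (t : A) (y : β → A) :
    aeval (fun b => t ^ w b * y b) P = t ^ e * aeval y P := by
  rw [aeval_def, aeval_def, eval₂_eq, eval₂_eq, Finset.mul_sum]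
  refine Finset.sum_congr rfl fun m hm => ?_
  rw [← h (mem_support_iff.1 hm), Finsupp.weight_apply, Finsupp.sum]
  simp only [mul_pow, Finset.prod_mul_distrib, ← pow_mul, Finset.prod_pow_eq_pow_sum, smul_eq_mul,
    mul_comm (w _)]
  ring

theorem hscale {R A β : Type*} [CommRing R] [CommRing A] [Algebra R A]
    {P : MvPolynomial β R} {e : ℕ} (h : P.IsHomogeneous e) (t : A) (y : β → A) :
    aeval (fun b => t * y b) P = t ^ e * aeval y P := by
  simpa using wscale h t y

variable {σ τ : Type} [Fintype σ] [Fintype τ]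

omit [Fintype σ] in
open Classical in
theorem cauchy {κ : Type u} [Field κ] {u : σ → κ} {v : τ → κ} (hu : Function.Injective u)
    (hv : Function.Injective v) (huv : ∀ i j, u i + v j ≠ 0) (I : Finset σ) {Y : τ → κ}
    (hY : Y ≠ 0) (h : ∀ i ∈ I, ∑ j, Y j / (u i + v j) = 0) :
    I.card < (Finset.univ.filter fun j => Y j ≠ 0).card := by
  set J := Finset.univ.filter fun j => Y j ≠ 0
  obtain ⟨j₀, h₀⟩ := Function.ne_iff.1 hY
  have hJ : j₀ ∈ J := by simpa [J] using h₀
  by_contra hc
  let Q : Polynomial κ :=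
    ∑ j ∈ J, Polynomial.C (Y j) * ∏ l ∈ J.erase j, (Polynomial.X + Polynomial.C (v l))
  have eQ : ∀ t, Q.eval t = ∑ j ∈ J, Y j * ∏ l ∈ J.erase j, (t + v l) := fun t => by
    simp [Q, Polynomial.eval_finsetSum, Polynomial.eval_prod]
  have h1 : Q.natDegree ≤ J.card - 1 := by
    refine Polynomial.natDegree_sum_le_of_forall_le _ _ fun j hj => ?_
    refine (Polynomial.natDegree_C_mul_le _ _).trans ((Polynomial.natDegree_prod_le _ _).trans ?_)
    simp [Finset.card_erase_of_mem hj]
  have h2 : Q = 0 := Polynomial.eq_zero_of_natDegree_lt_card_of_eval_eq_zero Q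
    (f := fun i : I => u i) (hu.comp Subtype.val_injective) (fun i => by
      have := h i i.2
      rw [← Finset.sum_subset (Finset.subset_univ J) fun j _ hj => by
        simp only [J, Finset.mem_filter, Finset.mem_univ, true_and, not_not] at hj
        rw [hj, zero_div]] at this
      rw [eQ, ← mul_zero (∏ l ∈ J, (u i + v l)), ← this, Finset.mul_sum]
      refine Finset.sum_congr rfl fun j hj => ?_
      rw [← Finset.mul_prod_erase J _ hj]
      field_simp [huv i j]) (by
      have := Finset.card_pos.2 ⟨_, hJ⟩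
      rw [Fintype.card_coe]
      omega)
  have h3 := eQ (-v j₀)
  rw [h2, Polynomial.eval_zero, Finset.sum_eq_single j₀ (fun j _ hj => by
    rw [Finset.prod_eq_zero (Finset.mem_erase.2 ⟨hj.symm, hJ⟩) (neg_add_cancel _), mul_zero])
    fun h => absurd hJ h] at h3
  refine mul_ne_zero h₀ (Finset.prod_ne_zero_iff.2 fun l hl e => ?_) h3.symm
  exact (Finset.mem_erase.1 hl).1 (hv (neg_add_eq_zero.1 e)).symm

variable (σ τ) in
/-- The bound for the nodes. -/
def bd : ℕ := Fintype.card σ + Fintype.card τ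

/-- First nodes. -/
noncomputable def un (i : σ) : ℕ := (Fintype.equivFin σ i).val + 1

/-- Second nodes. -/
noncomputable def vn (j : τ) : ℕ := (Fintype.equivFin τ j).val

open Classical in
/-- The Cauchy matrix with cleared denominators. -/
noncomputable def cau (i : σ) (j : τ) : ℤ := ∏ l ∈ Finset.univ.erase i, ((un l : ℤ) + vn j)

section

variable {κ : Type u} [Field κ] (hκ : ∀ n : ℕ, 0 < n → n ≤ bd σ τ → (n : κ) ≠ 0)
include hκ

theorem cast_inj {a b : ℕ} (ha : a ≤ bd σ τ) (hb : b ≤ bd σ τ) (h : (a : κ) = b) : a = b := by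
  by_contra hc
  rcases lt_or_gt_of_ne hc with h1 | h1
  · exact hκ (b - a) (by omega) (by omega) (by rw [Nat.cast_sub h1.le, h, sub_self])
  · exact hκ (a - b) (by omega) (by omega) (by rw [Nat.cast_sub h1.le, h, sub_self])

theorem un_inj : Function.Injective fun i : σ => (un i : κ) := fun i l h => by
  have h1 := (Fintype.equivFin σ i).2
  have h2 := (Fintype.equivFin σ l).2
  have := cast_inj hκ (by unfold un bd; omega) (by unfold un bd; omega) h
  exact (Fintype.equivFin σ).injective (Fin.ext (by unfold un at this; omega))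

theorem vn_inj : Function.Injective fun j : τ => (vn j : κ) := fun i l h => by
  have h1 := (Fintype.equivFin τ i).2
  have h2 := (Fintype.equivFin τ l).2
  exact (Fintype.equivFin τ).injective (Fin.ext
    (cast_inj hκ (by unfold bd; omega) (by unfold bd; omega) h))

theorem uv_ne (i : σ) (j : τ) : (un i : κ) + vn j ≠ 0 := by
  have h1 := (Fintype.equivFin σ i).2
  have h2 := (Fintype.equivFin τ j).2
  exact_mod_cast hκ (un i + vn j) (by unfold un; omega) (by unfold un vn bd; omega)

theorem pi_ne (j : τ) : ∏ l : σ, ((un l : κ) + vn j) ≠ 0 :=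
  Finset.prod_ne_zero_iff.2 fun l _ => uv_ne hκ l j

theorem cau_eq (i : σ) (j : τ) :
    (cau i j : κ) = (∏ l : σ, ((un l : κ) + vn j)) / (un i + vn j) := by
  classical
  rw [eq_div_iff (uv_ne hκ i j), ← Finset.prod_erase_mul _ _ (Finset.mem_univ i), cau]
  push_cast
  congr

open Classical in
theorem cau_row (I : Finset σ) {Y : τ → κ} (hY : Y ≠ 0) (h : ∀ i ∈ I, ∑ j, Y j * cau i j = 0) :
    I.card < (Finset.univ.filter fun j => Y j ≠ 0).card := by
  have := cauchy (un_inj hκ) (vn_inj hκ) (uv_ne hκ) I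
    (Y := fun j => Y j * ∏ l : σ, ((un l : κ) + vn j))
    (fun e => hY (funext fun j => (mul_eq_zero.1 (congrFun e j)).resolve_right (pi_ne hκ j)))
    fun i hi => by simpa only [cau_eq hκ, mul_div_assoc] using h i hi
  simpa [pi_ne hκ] using this

theorem no_sing {X : σ → κ} {Y : τ → κ} (hX : X ≠ 0) (hY : Y ≠ 0)
    (h1 : ∀ j, Y j * ∑ i, cau i j * X i = 0) (h2 : ∀ i, X i * ∑ j, Y j * cau i j = 0) : False := by
  classical
  have a := cau_row hκ (Finset.univ.filter fun i => X i ≠ 0) hY fun i hi =>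
    (mul_eq_zero.1 (h2 i)).resolve_left (Finset.mem_filter.1 hi).2
  have b := cauchy (vn_inj hκ) (un_inj hκ) (fun j i => add_comm (vn j : κ) _ ▸ uv_ne hκ i j)
    (Finset.univ.filter fun j => Y j ≠ 0) hX fun j hj => by
      have := (mul_eq_zero.1 (h1 j)).resolve_left (Finset.mem_filter.1 hj).2
      refine (mul_eq_zero.1 ?_).resolve_left (pi_ne hκ j)
      rw [← this, Finset.mul_sum]
      refine Finset.sum_congr rfl fun i _ => ?_
      rw [cau_eq hκ, add_comm (vn j : κ)]
      ring
  convert (a.trans b).false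

end

/-- The family of forms. -/
noncomputable def fam (d p : ℕ) (m : τ → MvPolynomial σ ℤ) (j : τ) : MvPolynomial σ ℤ :=
  C (p : ℤ) * m j + ∑ i, C (cau i j) * X i ^ d

theorem fam_hom {d : ℕ} (p : ℕ) {m : τ → MvPolynomial σ ℤ} (hm : ∀ j, (m j).IsHomogeneous d)
    (j : τ) : (fam d p m j).IsHomogeneous d :=
  ((hm j).C_mul _).add (.sum _ _ _ fun i _ => (isHomogeneous_X_pow i d).C_mul _)

theorem normal {K : Type u} [Field K] (B : ValuationSubring K) {x : σ → K} (hx : x ≠ 0) :
    ∃ (t : K) (x' : σ → B), t ≠ 0 ∧ (x = fun i => t * (x' i : K)) ∧ ∃ i, x' i = 1 := by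
  obtain ⟨i₁, h₁⟩ := Function.ne_iff.1 hx
  have : Nonempty σ := ⟨i₁⟩
  obtain ⟨i, hi⟩ := Finite.exists_max fun i => B.valuation (x i)
  have h0 : x i ≠ 0 := fun e => h₁ (by simpa [e] using hi i₁)
  refine ⟨x i, fun l => ⟨x l / x i, (B.valuation_le_one_iff _).1 ?_⟩, h0, funext fun l => ?_, i,
    Subtype.ext (div_self h0)⟩
  · rw [map_div₀]
    exact div_le_one_of_le₀ (hi l) zero_le
  · exact (mul_div_cancel₀ _ h0).symm

theorem fam_smooth {d p k : ℕ} (hp : p.Prime) (hd : 0 < d) (hk : 0 < k) (hb : bd σ τ + d < p)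
    {m : τ → MvPolynomial σ ℤ} (hm : ∀ j, (m j).IsHomogeneous d) (K : Type u) [Field K]
    [CharZero K] {x : σ → K} {s : τ → K} (hx : x ≠ 0) (hs : s ≠ 0)
    (h1 : ∀ j, s j * aeval x (fam d p m j) = 0)
    (h2 : ∀ i, ∑ j, s j ^ k * aeval x (pderiv i (fam d p m j)) = 0) : False := by
  classical
  obtain ⟨B, -, hB⟩ := Ideal.image_subset_nonunits_valuationSubring
    (Ideal.span {(p : (⊥ : Subring K))}) (by
      rw [Ne, Ideal.span_singleton_eq_top, isUnit_iff_exists_inv]
      rintro ⟨⟨_, hb⟩, h⟩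
      obtain ⟨n, rfl⟩ := Subring.mem_bot.1 hb
      have h3 : (p : ℤ) * n = 1 := by
        have := congrArg Subtype.val h
        simp only [Subring.coe_mul, SubringClass.coe_natCast, OneMemClass.coe_one] at this
        exact_mod_cast this
      exact hp.one_lt.ne' (by exact_mod_cast Int.eq_one_of_mul_eq_one_right (by positivity) h3))
  let κ := IsLocalRing.ResidueField B
  let φ : B →+* κ := IsLocalRing.residue B
  have hpκ : (p : κ) = 0 := by
    rw [← map_natCast φ, IsLocalRing.residue_eq_zero_iff, ← B.coe_mem_nonunits_iff]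
    exact hB ⟨_, Ideal.mem_span_singleton_self _, by simp⟩
  have := Fact.mk hp
  have : CharP κ p := (CharP.charP_iff_prime_eq_zero hp).2 hpκ
  have hn : ∀ n : ℕ, 0 < n → n < p → (n : κ) ≠ 0 := fun n a b e =>
    absurd (Nat.le_of_dvd a ((CharP.cast_eq_zero_iff κ p n).1 e)) (by omega)
  obtain ⟨t, x', ht, rfl, i₀, hi₀⟩ := normal B hx
  obtain ⟨t', s', ht', rfl, j₀, hj₀⟩ := normal B hs
  have e1 : ∀ G : MvPolynomial σ ℤ, aeval (fun i => (x' i : K)) G = ((aeval x' G : B) : K) :=
    fun G => (aeval_algebraMap_apply K x' G)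
  have e2 : ∀ G : MvPolynomial σ ℤ, φ (aeval x' G) = aeval (fun i => φ (x' i)) G := fun G =>
    (comp_aeval_apply x' φ.toIntAlgHom G)
  refine no_sing (σ := σ) (τ := τ) (fun n a b => hn n a (by omega))
    (X := fun i => φ (x' i) ^ d) (Y := fun j => φ (s' j) ^ k)
    (fun e => by simpa [hi₀] using congrFun e i₀) (fun e => by simpa [hj₀] using congrFun e j₀)
    (fun j => ?_) fun i => ?_
  · have a := h1 j
    rw [hscale (fam_hom p hm j), e1] at a
    have b : s' j * aeval x' (fam d p m j) = 0 := Subtype.ext (by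
      refine mul_left_cancel₀ (mul_ne_zero ht' (pow_ne_zero d ht)) ?_
      push_cast
      linear_combination a)
    have c := congrArg φ b
    rw [map_mul, e2] at c
    simp only [fam, map_add, map_mul, map_sum, map_pow, aeval_X, map_natCast, hpκ, zero_mul,
      zero_add, map_zero, eq_intCast, map_intCast] at c
    rw [← Nat.sub_add_cancel hk, pow_succ, mul_assoc, c, mul_zero]
  · have a := h2 i
    simp only [hscale (fam_hom p hm _).pderiv, e1] at a
    have b : ∑ j, s' j ^ k * aeval x' (pderiv i (fam d p m j)) = 0 := Subtype.ext (by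
      refine mul_left_cancel₀ (mul_ne_zero (pow_ne_zero k ht') (pow_ne_zero (d - 1) ht)) ?_
      push_cast
      rw [mul_zero, ← a, Finset.mul_sum]
      exact Finset.sum_congr rfl fun j _ => by ring)
    have c := congrArg φ b
    have e3 : ∀ j, aeval (fun i => φ (x' i)) (pderiv i (fam d p m j)) =
        cau i j * (d * φ (x' i) ^ (d - 1)) := fun j => by
      rw [fam, map_add, pderiv_C_mul, map_sum, Finset.sum_eq_single i (fun l _ hl => by
        simp [pderiv_X, hl]) (by simp), pderiv_C_mul]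
      simp
    simp only [map_sum, map_mul, map_pow, e2, e3, map_zero] at c
    refine mul_left_cancel₀ (hn d hd (by omega)) ?_
    rw [mul_zero, ← mul_zero (φ (x' i)), ← c, Finset.mul_sum, Finset.mul_sum, Finset.mul_sum]
    refine Finset.sum_congr rfl fun j _ => ?_
    conv_lhs => rw [← Nat.sub_add_cancel hd, pow_succ]
    rw [Nat.sub_add_cancel hd]
    ring

theorem fam_single {d : ℕ} (hd : 0 < d) (p : ℕ) {m : τ → MvPolynomial σ ℤ} {j : τ} (hj : m j = 0)
    (K : Type u) [Field K] [CharZero K] [DecidableEq σ] (i : σ) :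
    aeval (Pi.single i (1 : K)) (fam d p m j) ≠ 0 := by
  have hκ : ∀ n : ℕ, 0 < n → n ≤ bd σ τ → (n : K) ≠ 0 := fun n a _ => Nat.cast_ne_zero.2 a.ne'
  rw [fam, hj, mul_zero, zero_add, map_sum, Finset.sum_eq_single i (fun l _ hl => by
    simp [hl, hd.ne']) (by simp)]
  simpa [cau_eq hκ] using ⟨pi_ne hκ j, uv_ne hκ i j⟩

theorem fam_span {d p : ℕ} (hp : 0 < p) {m : τ → MvPolynomial σ ℤ} {κ : Type} (e : κ → τ)
    (he : Function.Injective e) (a : σ → κ) (ha : Function.Injective a) (h0 : ∀ i, m (e (a i)) = 0)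
    (L : Type u) [Field L] [CharZero L] (j : κ) : map (Int.castRingHom L) (m (e j)) ∈
      Submodule.span L (Set.range fun l => map (Int.castRingHom L) (fam d p m (e l))) := by
  classical
  have hκ : ∀ n : ℕ, 0 < n → n ≤ bd σ τ → (n : L) ≠ 0 := fun n a _ => Nat.cast_ne_zero.2 a.ne'
  set W := Submodule.span L (Set.range fun l => map (Int.castRingHom L) (fam d p m (e l)))
  have hF : ∀ l, map (Int.castRingHom L) (fam d p m l) =
      (p : L) • map (Int.castRingHom L) (m l) + ∑ i, (cau i l : L) • X i ^ d := fun l => by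
    simp [fam, smul_eq_C_mul]
  let M : Matrix σ σ L := Matrix.of fun i l => (cau i (e (a l)) : L)
  have h1 : Function.Injective M.mulVec := by
    refine (injective_iff_map_eq_zero M.mulVecLin).2 fun y hy => ?_
    by_contra hc
    have := cauchy (un_inj hκ) ((vn_inj hκ).comp (he.comp ha)) (fun i l => uv_ne hκ i _) Finset.univ
      (Y := fun l => y l * ∏ i : σ, ((un i : L) + vn (e (a l))))
      (fun h => hc (funext fun l => (mul_eq_zero.1 (congrFun h l)).resolve_right (pi_ne hκ _)))
      fun i _ => by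
        simp only [mul_div_assoc]
        simpa [M, Matrix.mulVec, dotProduct, cau_eq hκ, mul_comm (y _)] using congrFun hy i
    exact absurd (Finset.card_le_univ _) (not_le.2 (by simpa using this))
  have h2 : ∀ i, (X i ^ d : MvPolynomial σ L) ∈ W := fun i => by
    obtain ⟨y, hy⟩ := Matrix.mulVec_surjective_iff_isUnit.2
      (Matrix.mulVec_injective_iff_isUnit.1 h1) (Pi.single i 1)
    have : (X i ^ d : MvPolynomial σ L) =
        ∑ l, y l • map (Int.castRingHom L) (fam d p m (e (a l))) := by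
      simp only [hF, h0, map_zero, smul_zero, zero_add, Finset.smul_sum, smul_smul]
      rw [Finset.sum_comm, Finset.sum_congr rfl fun i' _ => by
        rw [← Finset.sum_smul, show ∑ l, y l * (cau i' (e (a l)) : L) =
          (Pi.single i 1 : σ → L) i' by
            simpa [M, Matrix.mulVec, dotProduct, mul_comm (y _)] using congrFun hy i']]
      simp [Pi.single_apply]
    rw [this]
    exact W.sum_mem fun l _ => W.smul_mem _ (Submodule.subset_span ⟨_, rfl⟩)
  refine (W.smul_mem_iff (Nat.cast_ne_zero.2 hp.ne' : (p : L) ≠ 0)).1 ?_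
  rw [← W.add_mem_iff_left (W.sum_mem fun i (_ : i ∈ Finset.univ) =>
    W.smul_mem (cau i (e j) : L) (h2 i)), ← hF]
  exact Submodule.subset_span ⟨_, rfl⟩

end Pool.Agent.P.MP_6f117a_ag.H
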