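import Pool.Agent.P.MP_6f117a_ag.H.Prime

/-! The codimension of the bad locus grows under hyperplane sections. -/

set_option autoImplicit false

namespace Pool.Agent.P.MP_6f117a_ag.H

open MvPolynomial

universe u

variable {L : Type u} [Field L] {r d : ℕ}

/-- The ideal of a set of pairs. -/
noncomputable def van {σ : Type} (d : ℕ) (S : Set (MvPolynomial σ L × (σ → L))) :
    Ideal (Un L σ d) := ⨅ x ∈ S, RingHom.ker (ev L d x.1 x.2)

theorem mem_van {σ : Type} {S : Set (MvPolynomial σ L × (σ → L))} {f : Un L σ d} :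
    f ∈ van d S ↔ ∀ F q, (F, q) ∈ S → ev L d F q f = 0 := by
  simp [van, RingHom.mem_ker]

/-- The pairs on which an ideal vanishes. -/
def Pt {σ : Type} (P : Ideal (Un L σ d)) (F : MvPolynomial σ L) (q : σ → L) : Prop :=
  F.IsHomogeneous d ∧ ∀ f ∈ P, ev L d F q f = 0

theorem stab' [Infinite L] {σ : Type} [Finite σ] {S : Set (MvPolynomial σ L × (σ → L))}
    {P : Ideal (Un L σ d)} (hP : P ∈ (van d S).minimalPrimes) (k : σ) (w : σ → L)
    {H : MvPolynomial σ L} (hH : H.IsHomogeneous d)
    (hS : ∀ F q, (F, q) ∈ S → F.IsHomogeneous d ∧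
      ∀ c : L, (bind₁ (tv k fun i => c * w i) F + C c * H, q) ∈ S)
    {F : MvPolynomial σ L} {q : σ → L} (h : Pt P F q) (c : L) :
    Pt P (bind₁ (tv k fun i => c * w i) F + C c * H) q := by
  let A := Un L σ d
  let G : MvPolynomial σ (Polynomial A) :=
    bind₁ (tv k fun i => Polynomial.X * algebraMap L _ (w i)) (map Polynomial.C (uf L σ d)) +
      C Polynomial.X * map (algebraMap L _) H
  let Γ : A →ₐ[L] Polynomial A := ev L d G fun i => Polynomial.C (X (Sum.inr i))
  have key : ∀ (F : MvPolynomial σ L) (q : σ → L) (c : L) (f : A), F.IsHomogeneous d →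
      ev L d F q ((Γ f).eval (algebraMap L A c)) =
        ev L d (bind₁ (tv k fun i => c * w i) F + C c * H) q f := fun F q c f hF => by
    let φ : Polynomial A →ₐ[L] L :=
      (ev L d F q).comp ((Polynomial.aeval (algebraMap L A c)).restrictScalars L)
    have e0 : ∀ a, φ a = ev L d F q (a.eval (algebraMap L A c)) := fun a => by
      simp [φ, Polynomial.coe_aeval_eq_eval]
    have e1 : φ Polynomial.X = c := by
      rw [e0, Polynomial.eval_X]
      exact (ev L d F q).commutes c
    have e2 : (φ : Polynomial A →+* L).comp Polynomial.C = (ev L d F q : A →+* L) :=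
      RingHom.ext fun a => by simp [e0]
    have e4 : ∀ a, φ (algebraMap L _ a) = a := φ.commutes
    have e3 : (φ : Polynomial A →+* L).comp (algebraMap L _) = RingHom.id L := RingHom.ext e4
    rw [← e0, map_ev]
    congr 2
    · rw [map_add, map_tv, map_map, e2, map_uf hF, map_mul, map_C, map_map, e3, map_id]
      simp only [RingHom.coe_coe, map_mul, e1]
      congr 4
      funext i
      exact congrArg _ (e4 _)
    · funext i
      simp [e0]
  refine ⟨(bind_hom _ _ h.1).add (hH.C_mul _), fun f hf => ?_⟩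
  rw [← key F q c f h.1]
  refine h.2 _ (stab hP Γ (fun f => ?_) (fun f hf c => mem_van.2 fun F q hF => ?_) f hf c)
  · refine MvPolynomial.funext fun a => ?_
    have := key (frm fun μ => a (Sum.inl μ)) (fun i => a (Sum.inr i)) 0 f (frm_hom _)
    rw [tv_zero _ (by simp), map_zero, map_zero, zero_mul, add_zero, ev_frm] at this
    exact this
  · rw [key F q c f (hS F q hF).1]
    exact mem_van.1 hf _ _ ((hS F q hF).2 c)

theorem mon_split (μ : Fin (r + 1) →₀ ℕ) (h : μ.degree = d) :
    μ = Finsupp.single 0 d ∨ ∃ j, j ≠ 0 ∧ μ j ≠ 0 := by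
  by_contra hc
  push Not at hc
  have e : μ = Finsupp.single 0 (μ 0) := by
    ext j
    by_cases hj : j = 0
    · simp [hj]
    · simp [hj, hc.2 j hj]
  refine hc.1 ?_
  rw [e] at h ⊢
  simpa using congrArg (Finsupp.single (0 : Fin (r + 1))) (by simpa using h)

theorem eval_e0 {F : MvPolynomial (Fin (r + 1)) L} (hF : F.IsHomogeneous d) :
    eval (Pi.single 0 1) F = coeff (Finsupp.single 0 d) F := by
  rw [eval_eq', Finset.sum_eq_single (Finsupp.single 0 d)]
  · rw [Finset.prod_eq_one, mul_one]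
    intro i _
    by_cases hi : i = 0
    · simp [hi]
    · simp [hi]
  · intro μ hμ h
    obtain ⟨j, h1, h2⟩ := (mon_split μ (by
      by_contra e
      exact mem_support_iff.1 hμ (hF.coeff_eq_zero e))).resolve_left h
    rw [Finset.prod_eq_zero (Finset.mem_univ j) (by simp [h1, h2]), mul_zero]
  · intro h
    rw [notMem_support_iff.1 h, zero_mul]

theorem add_all {V : MvPolynomial (Fin (r + 1)) L → Prop}
    (hV : ∀ F j (H : MvPolynomial (Fin (r + 1)) L) e, V F → j ≠ 0 → H.IsHomogeneous e →
      e + 1 = d → V (F + X j * H))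
    {F v : MvPolynomial (Fin (r + 1)) L} (h : V F) (hv : v.IsHomogeneous d)
    (h0 : eval (Pi.single 0 1) v = 0) : V (F + v) := by
  classical
  rw [eval_e0 hv] at h0
  have : ∀ s : Finset (Fin (r + 1) →₀ ℕ), s ⊆ v.support →
      V (F + ∑ μ ∈ s, monomial μ (coeff μ v)) := fun s => by
    induction s using Finset.induction_on with
    | empty => simpa using h
    | insert μ s hμ ih =>
      intro hs
      have h1 := mem_support_iff.1 (hs (Finset.mem_insert_self _ _))
      have h2 : μ.degree = d := by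
        by_contra e
        exact h1 (hv.coeff_eq_zero e)
      obtain ⟨j, h3, h4⟩ := (mon_split μ h2).resolve_left fun e => h1 (e ▸ h0)
      have h5 : Finsupp.single j 1 + (μ - Finsupp.single j 1) = μ :=
        add_tsub_cancel_of_le (Finsupp.single_le_iff.2 (Nat.one_le_iff_ne_zero.2 h4))
      have := hV _ j (monomial (μ - Finsupp.single j 1) (coeff μ v)) _
        (ih ((Finset.subset_insert _ _).trans hs)) h3 (isHomogeneous_monomial _ rfl) (by
          rw [← h2]
          conv_rhs => rw [← h5, map_add, Finsupp.degree_single]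
          omega)
      rw [Finset.sum_insert hμ, add_comm (monomial μ _), ← add_assoc]
      rwa [X, monomial_mul, one_mul, h5] at this
  simpa [← v.as_sum] using this _ le_rfl

/-- The formal properties of the locus of bad points inside the coordinate plane of
dimension `m`. -/
structure Bad (d : ℕ) (B : ℕ → MvPolynomial (Fin (r + 1)) L → (Fin (r + 1) → L) → Prop) :
    Prop where
  hom : ∀ m F p, B m F p → F.IsHomogeneous d
  on : ∀ m F p, B m F p → eval p F = 0
  p0 : ∀ m F p, B m F p → p 0 = 1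
  pm : ∀ m F p, B m F p → ∀ i : Fin (r + 1), m < i.val → p i = 0
  mono : ∀ m F p, B m F p → B (m + 1) F p
  tr : ∀ m F p k (w : Fin (r + 1) → L), B m F p → w k = 0 → w 0 = 0 →
    (∀ i : Fin (r + 1), m < i.val → w i = 0) → B m (bind₁ (tv k w) F) fun i => p i - w i * p k
  add : ∀ m F p (j : Fin (r + 1)) (H : MvPolynomial (Fin (r + 1)) L) e, B m F p → m < j.val →
    H.IsHomogeneous e → e + 1 = d → B m (F + X j * H) p

variable {B : ℕ → MvPolynomial (Fin (r + 1)) L → (Fin (r + 1) → L) → Prop}

variable (d B) in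
/-- Forms that are bad at the first coordinate point, with a dummy point. -/
noncomputable def II (n m : ℕ) : Ideal (Un L (Fin (r + 1)) d) :=
  van d {x | B m x.1 (Pi.single 0 1) ∧ x.2 0 = 1 ∧ ∀ j : Fin (r + 1), n < j.val → x.2 j = 0}

theorem II_succ (hB : Bad d B) (n m : ℕ) : II d B n (m + 1) ≤ II d B n m := fun _ hf =>
  mem_van.2 fun F q h => mem_van.1 hf F q ⟨hB.mono _ _ _ h.1, h.2⟩

theorem II_anti (hB : Bad d B) (n : ℕ) {m m' : ℕ} (h : m ≤ m') : II d B n m' ≤ II d B n m :=
  antitone_nat_of_succ_le (II_succ hB n) h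

theorem not_both [IsAlgClosed L] (hB : Bad d B) {n m : ℕ} (hm : m + 1 ≤ r)
    {P : Ideal (Un L (Fin (r + 1)) d)} (h1 : P ∈ (II d B n m).minimalPrimes)
    (h2 : P ∈ (II d B n (m + 1)).minimalPrimes) {F₀ : MvPolynomial (Fin (r + 1)) L}
    (hF : F₀.IsHomogeneous d) (h0 : eval (Pi.single 0 1) F₀ = 0) : ∃ q, Pt P F₀ q := by
  have hX : ∀ (j : Fin (r + 1)) {H : MvPolynomial (Fin (r + 1)) L} {e : ℕ}, H.IsHomogeneous e →
      e + 1 = d → (X j * H).IsHomogeneous d := fun j H e h h' => by
    rw [← h', add_comm e]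
    exact (isHomogeneous_X L j).mul h
  have a1 : ∀ F q (j : Fin (r + 1)) (H : MvPolynomial (Fin (r + 1)) L) e, Pt P F q → m < j.val →
      H.IsHomogeneous e → e + 1 = d → Pt P (F + X j * H) q := fun F q j H e h hj hH he => by
    have := stab' h1 0 0 (hX j hH he) (fun F q h => ⟨hB.hom _ _ _ h.1, fun c => ⟨by
      rw [tv_zero _ (by simp), mul_left_comm]
      exact hB.add _ _ _ j _ e h.1 hj (hH.C_mul c) he, h.2⟩⟩) h 1
    rwa [tv_zero _ (by simp), map_one, one_mul] at this
  let l : Fin (r + 1) := ⟨m + 1, by omega⟩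
  have a2 : ∀ F q (k : Fin (r + 1)) (c : L), Pt P F q → k ≠ 0 → k.val ≤ m →
      Pt P (bind₁ (tv k fun i => c * (Pi.single l 1 : Fin (r + 1) → L) i) F) q :=
    fun F q k c h hk hk' => by
    have hl : ∀ i : Fin (r + 1), i.val ≠ m + 1 → (Pi.single l 1 : Fin (r + 1) → L) i = 0 :=
      fun i hi => Pi.single_eq_of_ne (fun e => hi (congrArg Fin.val e)) _
    have := stab' h2 k (Pi.single l 1) (isHomogeneous_zero _ _ d) (fun F q h =>
      ⟨hB.hom _ _ _ h.1, fun c => ⟨by
        have := hB.tr _ _ _ k (fun i => c * (Pi.single l 1 : Fin (r + 1) → L) i) h.1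
          (by rw [hl k (by omega), mul_zero]) (by rw [hl 0 (by simp), mul_zero])
          fun i hi => by rw [hl i (by omega), mul_zero]
        simpa [Pi.single_eq_of_ne hk] using this, h.2⟩⟩) h c
    simpa using this
  have a3 : ∀ q F (j : Fin (r + 1)) (H : MvPolynomial (Fin (r + 1)) L) e, Pt P F q → j ≠ 0 →
      H.IsHomogeneous e → e + 1 = d → Pt P (F + X j * H) q := fun q F j H e h hj hH he => by
    rcases lt_or_ge m j.val with hj' | hj'
    · exact a1 F q j H e h hj' hH he
    have hl : j ≠ l := fun e => by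
      have := congrArg Fin.val e
      simp only [l] at this
      omega
    have b1 := a1 _ q l _ e (a2 F q j (-1) h hj hj') (by simp [l])
      (bind_hom j (fun i => -1 * (Pi.single l 1 : Fin (r + 1) → L) i) hH) he
    have b2 := a1 _ q l (-H) e (a2 _ q j 1 b1 hj hj') (by simp [l]) hH.neg he
    rw [map_add, map_mul, tv_inv (by simp [Pi.single_eq_of_ne hl]) (by simp),
      tv_inv (by simp [Pi.single_eq_of_ne hl]) (by simp), bind₁_X_right] at b2
    convert b2 using 1
    simp [tv]
    ring
  have := h1.1.1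
  obtain ⟨M, hM, hle⟩ := P.exists_le_maximal this.ne_top
  obtain ⟨a, rfl⟩ := isMaximal_iff_eq_vanishingIdeal_singleton.1 hM
  have b1 : Pt P (frm fun μ => a (Sum.inl μ)) fun i => a (Sum.inr i) :=
    ⟨frm_hom _, fun f hf => by rw [ev_frm]; exact hle hf a rfl⟩
  refine ⟨fun i => a (Sum.inr i), ?_⟩
  have := add_all (V := fun F => Pt P F fun i => a (Sum.inr i)) (a3 _) b1 (hF.sub b1.1) (by
    rw [map_sub, h0, eval_e0 b1.1, zero_sub, neg_eq_zero]
    have := b1.2 (X (Sum.inl ⟨Finsupp.single 0 d, by simp⟩)) (h1.1.2 (mem_van.2 fun F q h => by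
      rw [ev_inl, ← eval_e0 (hB.hom _ _ _ h.1)]
      exact hB.on _ _ _ h.1))
    rwa [ev_inl] at this)
  simpa using this

end Pool.Agent.P.MP_6f117a_ag.H
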