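import Mathlib

/-! Extension of homomorphisms to finitely many algebraic elements. -/

namespace Pool.Agent.P.MP_6f117a_ag.H

open MvPolynomial

universe u

/-- A homomorphism to an algebraically closed field extends along an injective integral map. -/
theorem ext_int {R S Ω : Type u} [CommRing R] [CommRing S] [Algebra R S]
    [Algebra.IsIntegral R S] (hinj : Function.Injective (algebraMap R S)) [Field Ω]
    [IsAlgClosed Ω] (ψ : R →+* Ω) : ∃ φ : S →+* Ω, ∀ r, φ (algebraMap R S r) = ψ r := by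
  have hp : (RingHom.ker ψ).IsPrime := RingHom.ker_isPrime ψ
  obtain ⟨Q, -, hQ, hc⟩ := Ideal.exists_ideal_over_prime_of_isIntegral (S := S)
    (RingHom.ker ψ) ⊥ (by
      intro x hx
      rw [Ideal.mem_comap, Ideal.mem_bot, ← map_zero (algebraMap R S)] at hx
      rw [hinj hx]
      exact zero_mem _)
  have : Q.LiesOver (RingHom.ker ψ) := ⟨hc.symm⟩
  let : Algebra (R ⧸ RingHom.ker ψ) Ω := (RingHom.kerLift ψ).toAlgebra
  have : Module.IsTorsionFree (R ⧸ RingHom.ker ψ) Ω :=
    Module.isTorsionFree_iff_algebraMap_injective.2 (RingHom.kerLift_injective ψ)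
  have : Module.IsTorsionFree (R ⧸ RingHom.ker ψ) (S ⧸ Q) :=
    Module.isTorsionFree_iff_algebraMap_injective.2 (FaithfulSMul.algebraMap_injective _ _)
  let L : (S ⧸ Q) →ₐ[R ⧸ RingHom.ker ψ] Ω := IsAlgClosed.lift
  refine ⟨(L : (S ⧸ Q) →+* Ω).comp (Ideal.Quotient.mk Q), fun r => ?_⟩
  have := L.commutes (Ideal.Quotient.mk _ r)
  exact this

theorem ext_hom0 {R K : Type u} [CommRing R] [IsDomain R] [Field K] [Algebra R K]
    (hinj : Function.Injective (algebraMap R K)) {β : Type} [Finite β] (y : β → K)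
    (hy : ∀ b, IsAlgebraic R (y b)) : ∃ Δ : R, Δ ≠ 0 ∧ ∀ (Ω : Type u) [Field Ω] [IsAlgClosed Ω]
      (ψ : R →+* Ω), ψ Δ ≠ 0 → ∃ y' : β → Ω,
        ∀ H : MvPolynomial β R, aeval y H = 0 → eval₂ ψ y' H = 0 := by
  classical
  have := Fintype.ofFinite β
  choose d hd0 hd using fun b => (hy b).exists_integral_multiple
  refine ⟨∏ b, d b, Finset.prod_ne_zero_iff.2 fun b _ => hd0 b, fun Ω _ _ ψ hψ => ?_⟩
  set Δ := ∏ b, d b with hΔ
  have hm : ∀ b, algebraMap R K Δ * y b ∈ integralClosure R K := fun b => by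
    rw [hΔ, ← Finset.prod_erase_mul _ _ (Finset.mem_univ b), map_mul, mul_assoc,
      ← Algebra.smul_def (d b)]
    exact mul_mem (algebraMap_mem _ _) (hd b)
  obtain ⟨φ, hφ⟩ := ext_int (S := integralClosure R K)
    (fun a b h => hinj (congrArg Subtype.val h)) ψ
  refine ⟨fun b => φ ⟨_, hm b⟩ / ψ Δ, fun H hH => ?_⟩
  have key : ∀ H : MvPolynomial β R, ∃ (n : ℕ) (s : integralClosure R K),
      (s : K) = algebraMap R K Δ ^ n * aeval y H ∧
        φ s = ψ Δ ^ n * eval₂ ψ (fun b => φ ⟨_, hm b⟩ / ψ Δ) H := by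
    intro H
    induction H using MvPolynomial.induction_on with
    | C a => exact ⟨0, algebraMap R _ a, by simp, by simp [hφ]⟩
    | add p q hp hq =>
      obtain ⟨n, s, h1, h2⟩ := hp
      obtain ⟨m, t, h3, h4⟩ := hq
      refine ⟨n + m, algebraMap R _ Δ ^ m * s + algebraMap R _ Δ ^ n * t, ?_, ?_⟩
      · simp only [Subalgebra.coe_add, Subalgebra.coe_mul, Subalgebra.coe_pow,
          Subalgebra.coe_algebraMap, h1, h3, map_add]
        ring
      · simp only [map_add, map_mul, map_pow, hφ, h2, h4, eval₂_add]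
        ring
    | mul_X p b hp =>
      obtain ⟨n, s, h1, h2⟩ := hp
      refine ⟨n + 1, s * ⟨_, hm b⟩, ?_, ?_⟩
      · simp only [Subalgebra.coe_mul, h1, map_mul, aeval_X]
        ring
      · rw [map_mul, h2, eval₂_mul, eval₂_X]
        field_simp
        ring
  obtain ⟨n, s, h1, h2⟩ := key H
  rw [hH, mul_zero] at h1
  rw [show s = 0 from Subtype.ext h1, map_zero] at h2
  exact (mul_eq_zero.1 h2.symm).resolve_left (pow_ne_zero _ hψ)

theorem ext_hom {R K : Type u} [CommRing R] [IsDomain R] [Field K] [Algebra R K]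
    (hinj : Function.Injective (algebraMap R K)) {β : Type} [Finite β] (y : β → K)
    (hy : ∀ b, IsAlgebraic R (y b)) (G : MvPolynomial β R) (hG : aeval y G ≠ 0) :
    ∃ Δ : R, Δ ≠ 0 ∧ ∀ (Ω : Type u) [Field Ω] [IsAlgClosed Ω] (ψ : R →+* Ω), ψ Δ ≠ 0 →
      ∃ y' : β → Ω, eval₂ ψ y' G ≠ 0 ∧
        ∀ H : MvPolynomial β R, aeval y H = 0 → eval₂ ψ y' H = 0 := by
  have hal : ∀ H : MvPolynomial β R, IsAlgebraic R (aeval y H) := fun H => by
    induction H using MvPolynomial.induction_on with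
    | C a => rw [aeval_C]; exact isAlgebraic_algebraMap a
    | add p q hp hq => rw [map_add]; exact hp.add hq
    | mul_X p b hp => rw [map_mul, aeval_X]; exact hp.mul (hy b)
  obtain ⟨Δ, h0, h⟩ := ext_hom0 hinj (fun o : Option β => o.elim (aeval y G)⁻¹ y)
    (fun o => by
      cases o with
      | none => exact (hal G).inv
      | some b => exact hy b)
  refine ⟨Δ, h0, fun Ω _ _ ψ hψ => ?_⟩
  obtain ⟨y', hy'⟩ := h Ω ψ hψ
  refine ⟨y' ∘ some, fun h0 => ?_, fun H hH => ?_⟩
  · have := hy' (X none * rename some G - 1) (by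
      rw [map_sub, map_mul, aeval_X, aeval_rename, map_one]
      exact sub_eq_zero.2 (inv_mul_cancel₀ hG))
    rw [eval₂_sub, eval₂_mul, eval₂_rename, h0, mul_zero, eval₂_one] at this
    simp at this
  · have := hy' (rename some H) (by rw [aeval_rename]; exact hH)
    rwa [eval₂_rename] at this

end Pool.Agent.P.MP_6f117a_ag.H
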