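import Pool.Agent.P.MP_6f117a_ag.H.Gen
import Pool.Agent.P.MP_6f117a_ag.H.Ext

/-! The bound for the degree of curves in a linear family of hypersurfaces of general type. -/

set_option autoImplicit false

namespace Pool.Agent.P.MP_6f117a_ag.H

open MvPolynomial PJ Sum

universe u

variable {L : Type u} [Field L] [IsAlgClosed L] [CharZero L] {r d : ℕ} {κ : Type} [Fintype κ]

/-- Polynomials in the free coordinates. -/
abbrev Fr (L : Type u) [Field L] (r : ℕ) (κ : Type) : Type u := MvPolynomial (Fin r ⊕ κ) L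

omit [IsAlgClosed L] [CharZero L] in
theorem aeval_seg {σ τ : Type} {M : ℕ} (ε : Fin M ≃ σ × τ) {E : Type u} [CommRing E] [Algebra L E]
    (y : σ ⊕ τ → E) (G : MvPolynomial (Fin M) L) :
    aeval y (bind₁ (seg ε X) G) = aeval (seg ε y) G := by
  rw [aeval_bind₁]
  congr 2
  funext m
  simp [seg]

omit [CharZero L] in
theorem root_mem {Ω : Type u} [Field Ω] [Algebra L Ω] {z : Ω} {c : L} {k : ℕ} (hk : 0 < k)
    (h : z ^ k = algebraMap L Ω c) : ∃ s, algebraMap L Ω s = z :=
  (const_or_trans z).resolve_right (not_not.2 (.of_pow hk (h ▸ isAlgebraic_algebraMap c)))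

theorem fam_lv (F : Option (Option κ) → MvPolynomial (Fin (r + 1)) L)
    (hF : ∀ j, (F j).IsHomogeneous d) (hd : r + 2 ≤ d) {k : ℕ} (hk : Fintype.card κ + 3 ≤ k)
    (h0 : eval (Pi.single 0 1) (F none) ≠ 0)
    (hs : ∀ (E : Type u) [Field E] [Algebra L E] (x : Fin (r + 1) → E)
      (s : Option (Option κ) → E), x ≠ 0 → s ≠ 0 → (∀ j, s j * aeval x (F j) = 0) →
        (∀ i, ∑ j, s j ^ k * aeval x (pderiv i (F j)) = 0) → False) :
    ∃ (α : ℕ) (Δ : MvPolynomial (Fin r ⊕ κ) L), Δ ≠ 0 ∧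
      ∀ (K' : Type u) [Field K'] [Algebra L K'] [FF L K'] (ξ : Fin (r + 1) → K')
        (c : Option (Option κ) → L), ξ 0 = 1 → c (some none) = 1 →
        ∑ j, algebraMap L K' (c j) * aeval ξ (F j) = 0 → aeval ξ (F none) ≠ 0 →
        aeval (Sum.elim (fun i => ξ i.succ) fun j => algebraMap L K' (c (some (some j)))) Δ ≠ 0 →
          degree L ξ ≤ α * genus L K' := by
  classical
  have k0 : 0 < k := by omega
  obtain ⟨K, _, _, y, on, y0, y1, hn, hb, top⟩ := exists_gen F k0 h0
  obtain ⟨D, g, e₀, g0, g1, g2⟩ := exists_e0 r κ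
  obtain ⟨N, hN⟩ : ∃ N, Fintype.card (Fin (r + 1) × Option (Option κ)) = N + 1 :=
    Nat.exists_eq_add_one_of_ne_zero Fintype.card_ne_zero
  let ε := (Fintype.equivFinOfCardEq hN).symm
  have : CharZero K := charZero_of_injective_algebraMap (algebraMap L K).injective
  have sm := seg_genType y e₀ (d := d) (k := k) ⟨phi_bi hF, on, fun a ⟨i, hi⟩ ⟨j, hj⟩ _ =>
    phi_smooth k0 a (hs L _ _ (Function.ne_iff.2 ⟨i, hi⟩) (Function.ne_iff.2 ⟨j, hj⟩))⟩
    (by simp; omega) (by simp; omega) (phi_smooth k0 y (hs K _ _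
      (Function.ne_iff.2 ⟨0, by simp [y0]⟩) (Function.ne_iff.2 ⟨some none, by simp [y1]⟩)))
    g1 g2 y0 y1
    ((isTranscendenceBasis_equiv' g (f := fun a => y (fr a)) (g := fun a => y (e₀ (inl a)))
      (_root_.funext fun a => congrArg y (g0 a).symm)).2 hb) top ε
  obtain ⟨α, e, G, -, hG, hLV⟩ := lv_all L K N (seg ε y) sm.1.1 sm.1.2.1 ⟨D, _, _, sm⟩
  let ex : Fin r ⊕ κ → ℕ := Sum.elim (fun _ => 1) fun _ => k
  let θ : Fr L r κ →ₐ[L] K := aeval fun a => y (fr a) ^ ex a
  have hθ : Function.Injective θ := by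
    have := hb.1.polynomial_aeval_of_transcendental (f := fun a => Polynomial.X ^ ex a)
      fun a => (Polynomial.transcendental_X L).pow (by cases a <;> simp [ex, k0])
    simpa [AlgebraicIndependent] using this
  let _ : Algebra (Fr L r κ) K := θ.toRingHom.toAlgebra
  have : IsScalarTower L (Fr L r κ) K := .of_algebraMap_eq fun c => (θ.commutes c).symm
  have eθ : ∀ a, algebraMap (Fr L r κ) K (X a) = y (fr a) ^ ex a := fun a => aeval_X _ _
  have a0 : ∀ z ∈ θ.range, IsAlgebraic (Fr L r κ) z := by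
    rintro _ ⟨b, rfl⟩
    exact isAlgebraic_algebraMap b
  have a1 : ∀ i, y (inl i) ∈ θ.range := fun i =>
    Fin.cases (y0 ▸ one_mem _) (fun i => ⟨X (inl i), (eθ _).trans (pow_one _)⟩) i
  have a2 : ∀ G : MvPolynomial (Fin (r + 1)) L, aeval (fun i => y (inl i)) G ∈ θ.range := fun G =>
    eval₂_mem (fun _ _ => θ.range.algebraMap_mem _) a1
  have a3 : ∀ j, y (inr (some j)) ^ k ∈ θ.range := by
    rintro (_ | j)
    · rw [y1, one_pow]
      exact one_mem _
    · exact ⟨X (inr j), eθ _⟩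
  obtain ⟨Δ, hΔ, hext⟩ := ext_hom hθ y (by
      rintro (i | _ | j)
      · exact a0 _ (a1 i)
      · rw [aeval_phi, Fintype.sum_option] at on
        refine .of_pow k0 (.of_mul (mem_nonZeroDivisors_of_ne_zero hn) (a0 _ (a2 _)) (a0 _ ?_))
        rw [mul_comm, eq_neg_of_add_eq_zero_left on]
        exact neg_mem (sum_mem fun j _ => mul_mem (a3 j) (a2 _))
      · exact .of_pow k0 (a0 _ (a3 j)))
    (map (algebraMap L (Fr L r κ)) (bind₁ (seg ε X) G)) (by
      rwa [aeval_map_algebraMap, aeval_seg])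
  refine ⟨α, Δ, hΔ, fun K' _ _ _ ξ c b0 b1 b2 b3 b4 => ?_⟩
  obtain ⟨Ω, _, _, _, ⟨ι⟩⟩ : ∃ (Ω : Type u) (_ : Field Ω) (_ : IsAlgClosed Ω) (_ : Algebra L Ω),
      Nonempty (K' →ₐ[L] Ω) := ⟨AlgebraicClosure K', inferInstance, inferInstance, inferInstance,
    ⟨IsScalarTower.toAlgHom L K' _⟩⟩
  have hι : Function.Injective ι := ι.injective
  let ψ : Fr L r κ →ₐ[L] Ω := ι.comp
    (aeval (Sum.elim (fun i => ξ i.succ) fun j => algebraMap L K' (c (some (some j)))))
  obtain ⟨y', c1, c2⟩ := hext Ω ψ fun h => b4 (hι (h.trans (map_zero _).symm))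
  have c3 : ∀ H : MvPolynomial _ L, eval₂ (ψ : Fr L r κ →+* Ω) y' (map (algebraMap L (Fr L r κ)) H) = aeval y' H :=
    fun H => by rw [eval₂_map, ψ.comp_algebraMap, aeval_def]
  have c4 : ∀ H : MvPolynomial _ L, aeval y H = 0 → aeval y' H = 0 := fun H h => by
    rw [← c3]
    exact c2 _ (by rwa [aeval_map_algebraMap])
  have c5 : ∀ a, y' (fr a) ^ ex a = ψ (X a) := fun a => by
    have := c2 (X (fr a) ^ ex a - C (X a)) (by simp [eθ])
    simpa [sub_eq_zero] using this
  have c6 : ∀ i, y' (inl i) = ι (ξ i) := fun i => by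
    refine Fin.cases ?_ (fun i => ?_) i
    · have := c4 (X (inl 0) - 1) (by simp [y0])
      rw [map_sub, aeval_X, map_one, sub_eq_zero] at this
      rw [this, b0, map_one]
    · simpa [ex, ψ, fr] using c5 (inl i)
  have c9 : y' (inr (some none)) = 1 := by
    have := c4 (X (inr (some none)) - 1) (by simp [y1])
    simpa [sub_eq_zero] using this
  have c7 : ∀ j, y' (inr (some j)) ^ k = algebraMap L Ω (c (some j)) := by
    rintro (_ | j)
    · rw [c9, b1, one_pow, map_one]
    · simpa [ex, ψ, fr] using c5 (inr j)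
  have c8 : ∀ j, y' (inr j) ^ k = algebraMap L Ω (c j) := by
    rintro (_ | j)
    · have h1 := c4 _ on
      have h2 := congrArg ι b2
      rw [aeval_phi, Fintype.sum_option] at h1
      rw [map_zero, map_sum, Fintype.sum_option] at h2
      simp only [c6, c7, ← comp_aeval_apply] at h1
      simp only [map_mul, AlgHom.commutes] at h2
      exact mul_right_cancel₀ (fun h => b3 (hι (h.trans (map_zero _).symm)))
        (by linear_combination h1 - h2)
    · exact c7 j
  choose s hs' using fun j => root_mem k0 (c8 j)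
  let η : Fin (r + 1) ⊕ Option (Option κ) → K' := Sum.elim ξ fun j => algebraMap L K' (s j)
  have d1 : ∀ G : MvPolynomial (Fin (N + 1)) L,
      ι (aeval (seg ε η) G) = aeval y' (bind₁ (seg ε X) G) := fun G => by
    rw [comp_aeval_apply, aeval_seg]
    congr 2
    funext m
    simp [seg, η, c6, hs']
  have s1 : s (some none) = 1 := (algebraMap L Ω).injective (by rw [hs', c9, map_one])
  have d2 : (fun i => aeval (seg ε η) (X (ε.symm (i, some none)) : MvPolynomial _ L)) = ξ := by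
    funext i
    simp [seg, η, s1]
  have d3 : ξ ≠ 0 := fun h => one_ne_zero (b0.symm.trans (congrFun h 0))
  have d4 : seg ε η ≠ 0 := fun h => d3 (by rw [← d2, h]; funext i; simp)
  have d5 := (t_HT L K' N _ d4).2.2.1 r 1 _ (fun i => isHomogeneous_X L (ε.symm (i, some none)))
    (d2.symm ▸ d3)
  rw [d2, Nat.cast_one, one_mul] at d5
  refine d5.trans (hLV K' _ d4 (fun G' h => hι ?_) fun h => c1 ?_)
  · rw [d1, map_zero]
    exact c4 _ ((aeval_seg _ _ _).trans h.2)
  · rw [c3, ← d1, h, map_zero]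

end Pool.Agent.P.MP_6f117a_ag.H
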