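import Pool.Agent.P.MP_6f117a_ag.H.Canon

/-! The Kummer cover of a linear family of hypersurfaces and its generic point. -/

set_option autoImplicit false

namespace Pool.Agent.P.MP_6f117a_ag.H

open MvPolynomial PJ Sum

universe u

variable {L : Type u} [Field L] {r d k : ℕ}

/-- The equation of the cover. -/
noncomputable def phi {σ τ : Type} [Fintype τ] (k : ℕ) (F : τ → MvPolynomial σ L) :
    MvPolynomial (σ ⊕ τ) L := ∑ j, X (inr j) ^ k * rename inl (F j)

section

variable {σ τ : Type} [Fintype τ] {F : τ → MvPolynomial σ L} {E : Type u} [Field E] [Algebra L E]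

theorem aeval_phi (y : σ ⊕ τ → E) :
    aeval y (phi k F) = ∑ j, y (inr j) ^ k * aeval (fun i => y (inl i)) (F j) := by
  simp [phi, aeval_rename, Function.comp_def]

theorem phi_bi (hF : ∀ j, (F j).IsHomogeneous d) : Bi (phi k F) d k := by
  have h : ∀ j, Bi (X (inr j) ^ k * rename inl (F j) : MvPolynomial (σ ⊕ τ) L) d k := fun j => by
    have a : Bi (X (inr j) ^ k : MvPolynomial (σ ⊕ τ) L) 0 k :=
      ⟨by simpa [wa] using (bi_X (L := L) (inr j : σ ⊕ τ)).1.pow k,
        by simpa [wb] using (bi_X (L := L) (inr j : σ ⊕ τ)).2.pow k⟩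
    have b : Bi (rename inl (F j) : MvPolynomial (σ ⊕ τ) L) d 0 := by
      constructor <;> intro m hm <;>
        obtain ⟨μ, rfl, hμ⟩ := coeff_rename_ne_zero _ _ _ hm
      · rw [← hF j hμ, Finsupp.weight_apply, Finsupp.weight_apply,
          Finsupp.sum_mapDomain_index (by simp) (by simp [add_mul])]
        rfl
      · rw [Finsupp.weight_apply, Finsupp.sum_mapDomain_index (by simp) (by simp [add_mul])]
        simp [wb]
    exact (a.mul b).cast (by omega) (by omega)
  exact ⟨.sum _ _ _ fun j _ => (h j).1, .sum _ _ _ fun j _ => (h j).2⟩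

theorem phi_smooth [CharZero E] (hk : 0 < k) (y : σ ⊕ τ → E)
    (hs : (∀ j, y (inr j) * aeval (fun i => y (inl i)) (F j) = 0) →
      (∀ i, ∑ j, y (inr j) ^ k * aeval (fun i => y (inl i)) (pderiv i (F j)) = 0) → False) :
    ∃ v, aeval y (pderiv v (phi k F)) ≠ 0 := by
  classical
  by_contra hc
  push Not at hc
  refine hs (fun j => ?_) fun i => ?_
  · have := hc (inr j)
    have e : ∀ G : MvPolynomial σ L, pderiv (inr j : σ ⊕ τ) (rename inl G) = 0 := fun G =>
      pderiv_eq_zero_of_notMem_vars fun h => by simpa using vars_rename _ _ h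
    rw [phi, map_sum, map_sum, Finset.sum_eq_single j (fun l _ hl => by
      simp [pderiv_X, hl, e]) (by simp)] at this
    by_cases h : y (inr j) = 0
    · rw [h, zero_mul]
    · simpa [e, h, hk.ne', aeval_rename, Function.comp_def] using this
  · have := hc (inl i)
    simpa [phi, pderiv_X, pderiv_rename inl_injective, aeval_rename, Function.comp_def] using this

end

variable {κ : Type} [Fintype κ]

/-- The free coordinates. -/
def fr : Fin r ⊕ κ → Fin (r + 1) ⊕ Option (Option κ) :=
  Sum.elim (fun i => inl i.succ) fun j => inr (some (some j))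

theorem exists_gen (F : Option (Option κ) → MvPolynomial (Fin (r + 1)) L) (hk : 0 < k)
    (h0 : eval (Pi.single 0 1) (F none) ≠ 0) :
    ∃ (K : Type u) (_ : Field K) (_ : Algebra L K) (y : Fin (r + 1) ⊕ Option (Option κ) → K),
      aeval y (phi k F) = 0 ∧ y (inl 0) = 1 ∧ y (inr (some none)) = 1 ∧
      aeval (fun i => y (inl i)) (F none) ≠ 0 ∧ IsTranscendenceBasis L (fun a => y (fr a)) ∧
      IntermediateField.adjoin L (Set.range y) = ⊤ := by
  let Ω := AlgebraicClosure (FractionRing (MvPolynomial (Fin r ⊕ κ) L))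
  let t : Fin r ⊕ κ → Ω := fun a => algebraMap (MvPolynomial (Fin r ⊕ κ) L) Ω (X a)
  have ht : AlgebraicIndependent L t := by
    have := (algebraicIndependent_X (Fin r ⊕ κ) L).map' (f := IsScalarTower.toAlgHom L _ Ω)
      ((algebraMap (FractionRing (MvPolynomial (Fin r ⊕ κ) L)) Ω).injective.comp
        (IsFractionRing.injective _ _))
    exact this
  let x : Fin (r + 1) → Ω := Fin.cons 1 fun i => t (inl i)
  have hx : aeval x (F none) ≠ 0 := fun e => h0 (by
    have e1 : aeval t (aeval (Fin.cons 1 fun i => X (inl i) :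
        Fin (r + 1) → MvPolynomial (Fin r ⊕ κ) L) (F none)) = 0 := by
      rw [← AlgHom.comp_apply, comp_aeval, ← e]
      congr 2
      funext i
      refine Fin.cases ?_ (fun i => ?_) i <;> simp [x]
    have e2 := congrArg (aeval (0 : Fin r ⊕ κ → L)) (algebraicIndependent_iff.1 ht _ e1)
    rw [← AlgHom.comp_apply, comp_aeval, map_zero] at e2
    rw [← e2, ← coe_aeval_eq_eval, RingHom.coe_coe]
    congr 2
    funext i
    refine Fin.cases ?_ (fun i => ?_) i <;> simp)
  obtain ⟨w, hw⟩ := IsAlgClosed.exists_pow_nat_eq (-(aeval x (F (some none)) +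
    ∑ j, t (inr j) ^ k * aeval x (F (some (some j)))) / aeval x (F none)) hk
  let v : Fin (r + 1) ⊕ Option (Option κ) → Ω :=
    Sum.elim x fun j => j.elim w fun j => j.elim 1 fun j => t (inr j)
  let K := IntermediateField.adjoin L (Set.range v)
  let y : Fin (r + 1) ⊕ Option (Option κ) → K :=
    fun b => ⟨v b, IntermediateField.subset_adjoin _ _ ⟨b, rfl⟩⟩
  have top : IntermediateField.adjoin L (Set.range y) = ⊤ := by
    apply IntermediateField.map_injective K.val
    rw [IntermediateField.adjoin_map, ← Set.range_comp, ← AlgHom.fieldRange_eq_map,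
      IntermediateField.fieldRange_val]
    rfl
  have ev : ∀ G : MvPolynomial (Fin (r + 1)) L, K.val (aeval (fun i => y (inl i)) G) = aeval x G :=
    fun G => comp_aeval_apply _ K.val G
  have hn : aeval (fun i => y (inl i)) (F none) ≠ 0 := fun e => hx (by rw [← ev, e, map_zero])
  have on : aeval y (phi k F) = 0 := (show Function.Injective K.val from K.val.injective) (by
    rw [aeval_phi, map_sum, map_zero]
    simp only [map_mul, map_pow, ev, Fintype.sum_option]
    change w ^ k * _ + (1 ^ k * _ + ∑ j, t (inr j) ^ k * _) = 0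
    rw [hw, div_mul_cancel₀ _ hx, one_pow, one_mul, neg_add_cancel])
  refine ⟨K, inferInstance, inferInstance, y, on, rfl, rfl, hn, ?_, top⟩
  rw [isTranscendenceBasis_iff_algebraicIndependent_isAlgebraic,
    ← IntermediateField.isAlgebraic_adjoin_iff_top]
  refine ⟨.of_comp K.val (by convert ht using 1; funext a; cases a <;> rfl), ?_⟩
  set E := IntermediateField.adjoin L (Set.range fun a => y (fr a))
  have hE : ∀ a, y (fr a) ∈ E := fun a => IntermediateField.subset_adjoin _ _ ⟨a, rfl⟩
  have h1 : ∀ i, y (inl i) ∈ E := fun i => Fin.cases E.one_mem (fun i => hE (inl i)) i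
  have h2 : ∀ G : MvPolynomial (Fin (r + 1)) L, aeval (fun i => y (inl i)) G ∈ E := fun G =>
    eval₂_mem (fun _ _ => E.algebraMap_mem _) h1
  have h3 : ∀ b, y b ^ k ∈ E := by
    rintro (i | _ | _ | j)
    · exact pow_mem (h1 i) _
    · rw [aeval_phi, Fintype.sum_option, Fintype.sum_option] at on
      rw [eq_div_of_mul_eq hn (eq_neg_of_add_eq_zero_left on)]
      exact div_mem (neg_mem (add_mem (mul_mem (pow_mem E.one_mem _) (h2 _))
        (sum_mem fun j _ => mul_mem (pow_mem (hE (inr j)) _) (h2 _)))) (h2 _)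
    · exact pow_mem E.one_mem _
    · exact pow_mem (hE (inr j)) _
  have h4 : (algebraicClosure E K).restrictScalars L = ⊤ :=
    top_le_iff.1 (top ▸ IntermediateField.adjoin_le_iff.2 (by
      rintro _ ⟨b, rfl⟩
      exact IsIntegral.of_pow hk (isIntegral_algebraMap (x := (⟨_, h3 b⟩ : E)))))
  exact ⟨fun t => (show IsIntegral E t from
    (h4.ge (IntermediateField.mem_top (x := t)))).isAlgebraic⟩

theorem exists_e0 (r : ℕ) (κ : Type) [Fintype κ] :
    ∃ (D : ℕ) (g : Fin D ≃ Fin r ⊕ κ) (e : Fin D ⊕ Fin 3 ≃ Fin (r + 1) ⊕ Option (Option κ)),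
      (∀ a, e (inl a) = fr (g a)) ∧ e (inr 1) = inl 0 ∧ e (inr 2) = inr (some none) := by
  let g := (Fintype.equivFin (Fin r ⊕ κ)).symm
  refine ⟨_, g, Equiv.ofBijective (Sum.elim (fun a => fr (g a))
    ![inr none, inl 0, inr (some none)]) ((Fintype.bijective_iff_surjective_and_card _).2
      ⟨?_, by simp; omega⟩), fun _ => rfl, rfl, rfl⟩
  rintro (i | _ | _ | j)
  · exact Fin.cases ⟨inr 1, rfl⟩ (fun i => ⟨inl (g.symm (inl i)), by simp [fr]⟩) i
  · exact ⟨inr 0, rfl⟩
  · exact ⟨inr 2, rfl⟩
  · exact ⟨inl (g.symm (inr j)), by simp [fr]⟩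

end Pool.Agent.P.MP_6f117a_ag.H
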