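import Pool.Agent.P.MP_6f117a_ag.H.Chain

/-! If the bad locus of the universal hypersurface in dimension `r` is not dense, then in
dimension `n` with `2 n ≤ r + 2` it is finite over the space of forms. -/

set_option autoImplicit false

namespace Pool.Agent.P.MP_6f117a_ag.H

open MvPolynomial

universe u

variable {L : Type u} [Field L] {r d : ℕ}
  {B : ℕ → MvPolynomial (Fin (r + 1)) L → (Fin (r + 1) → L) → Prop}

/-- The affine part of a point, times a sign. -/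
def up {E : Type u} [CommRing E] (c : ℤ) (q : Fin (r + 1) → E) (i : Fin (r + 1)) : E :=
  if i = 0 then 0 else c * q i

theorem up_neg {E : Type u} [CommRing E] (c : ℤ) (q : Fin (r + 1) → E) (i : Fin (r + 1)) :
    up (-c) q i = -up c q i := by
  unfold up
  split_ifs <;> simp

theorem map_up {E E' : Type u} [CommRing E] [CommRing E'] (φ : E →+* E') (c : ℤ)
    (q : Fin (r + 1) → E) : (fun i => φ (up c q i)) = up c fun i => φ (q i) := by
  funext i
  unfold up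
  split_ifs <;> simp

theorem top_elt (hB : Bad d B) (n : ℕ) (Δ : Un L (Fin (r + 1)) d)
    (F₁ : MvPolynomial (Fin (r + 1)) L) (p₁ : Fin (r + 1) → L) (h1 : F₁.IsHomogeneous d)
    (h2 : eval p₁ F₁ = 0) (h3 : p₁ 0 = 1) (h4 : ev L d F₁ p₁ Δ ≠ 0)
    (h5 : ∀ F p, B r F p → ev L d F p Δ = 0) :
    ∃ (f : Un L (Fin (r + 1)) d) (F₀ : MvPolynomial (Fin (r + 1)) L), f ∈ II d B n r ∧
      F₀.IsHomogeneous d ∧ eval (Pi.single 0 1) F₀ = 0 ∧ ∀ q, ev L d F₀ q f ≠ 0 := by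
  let p : Fin (r + 1) → Un L (Fin (r + 1)) d := fun i => algebraMap L _ (p₁ i)
  have key : ∀ (F : MvPolynomial (Fin (r + 1)) L) q, F.IsHomogeneous d →
      ev L d F q (ev L d (bind₁ (tv 0 (up (-1) p)) (uf L _ d)) p Δ) =
        ev L d (bind₁ (tv 0 (up (-1) p₁)) F) p₁ Δ := fun F q hF => by
    have e : (fun i => ev L d F q (p i)) = p₁ := funext fun i => (ev L d F q).commutes _
    rw [map_ev, map_tv, map_uf hF, map_up]
    simp only [RingHom.coe_coe, e]
  refine ⟨ev L d (bind₁ (tv 0 (up (-1) p)) (uf L _ d)) p Δ, bind₁ (tv 0 (up 1 p₁)) F₁,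
    mem_van.2 fun F q h => ?_, bind_hom _ _ h1, ?_, fun q => ?_⟩
  swap
  · rw [← h2, ← coe_aeval_eq_eval, ← coe_aeval_eq_eval, RingHom.coe_coe, RingHom.coe_coe, aeval_tv]
    congr 2
    funext i
    by_cases hi : i = 0 <;> simp [up, hi, h3]
  swap
  · rw [key _ _ (bind_hom _ _ h1), tv_inv (by simp [up]) fun i => by rw [up_neg, neg_neg]]
    exact h4
  · rw [key _ _ (hB.hom _ _ _ h.1)]
    refine h5 _ _ ?_
    convert hB.tr _ _ _ 0 (up (-1) p₁) h.1 (by simp [up]) (by simp [up])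
      (fun i hi => absurd i.2 (by omega)) using 2 with i
    by_cases hi : i = 0 <;> simp [up, hi, h3]

theorem chain [IsAlgClosed L] (hB : Bad d B) {n : ℕ} {f : Un L (Fin (r + 1)) d}
    {F₀ : MvPolynomial (Fin (r + 1)) L} (h1 : f ∈ II d B n r) (h2 : F₀.IsHomogeneous d)
    (h3 : eval (Pi.single 0 1) F₀ = 0) (h4 : ∀ q, ev L d F₀ q f ≠ 0)
    {P : Ideal (Un L (Fin (r + 1)) d)} (hP : P.IsPrime) (hle : II d B n n ≤ P) {t : ℕ}
    (ht : Dim L P t) (s : ℕ) (hs : n + s ≤ r) :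
    ∃ Q ∈ (II d B n (n + s)).minimalPrimes, Dim L Q (t + s) := by
  induction s with
  | zero =>
    obtain ⟨Q, hQ, hQ'⟩ := Ideal.exists_minimalPrimes_le hle
    exact ⟨Q, hQ, ht.mono hQ'⟩
  | succ s ih =>
    obtain ⟨Q, hQ, hd⟩ := ih (by omega)
    have := hQ.1.1
    obtain ⟨Q', hQ', hle'⟩ := Ideal.exists_minimalPrimes_le ((II_succ hB n _).trans hQ.1.2)
    refine ⟨Q', hQ', ?_⟩
    by_cases h : Q ≤ Q'
    · obtain rfl := le_antisymm h hle'
      obtain ⟨q, hq⟩ := not_both hB hs hQ hQ' h2 h3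
      exact absurd (hq.2 f (hQ.1.2 (II_anti hB n (by omega) h1))) (h4 q)
    · obtain ⟨a, ha, ha'⟩ := SetLike.not_le_iff_exists.1 h
      exact hd.succ hQ'.1.1 hle' ha ha'

theorem gen_pt (hB : Bad d B) {n : ℕ} (hn : n ≤ r) {f : Un L (Fin (r + 1)) d}
    {F₀ : MvPolynomial (Fin (r + 1)) L} (h1 : f ∈ II d B n r) (h2 : F₀.IsHomogeneous d)
    (h3 : eval (Pi.single 0 1) F₀ = 0) (h4 : ∀ q, ev L d F₀ q f ≠ 0)
    {Q : Ideal (Un L (Fin (r + 1)) d)} (hle : II d B n r ≤ Q) {t : ℕ} (ht : Dim L Q t) :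
    t + 2 ≤ Fintype.card (Mon (Fin (r + 1)) d) + n := by
  classical
  let μ₀ : Mon (Fin (r + 1)) d := ⟨Finsupp.single 0 d, by simp⟩
  let n' : Fin (r + 1) := ⟨n, by omega⟩
  let Z : Finset (Mon (Fin (r + 1)) d ⊕ Fin (r + 1)) :=
    insert (Sum.inl μ₀) ((insert 0 (Finset.Ioi n')).map ⟨Sum.inr, Sum.inr_injective⟩)
  have hZ : Z.card = r - n + 2 := by
    rw [Finset.card_insert_of_notMem (by simp), Finset.card_map,
      Finset.card_insert_of_notMem (by simp), Fin.card_Ioi]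
    simp [n']
  let θ : Un L (Fin (r + 1)) d →ₐ[L] MvPolynomial ↥Zᶜ L := aeval fun v =>
    if h : v ∈ Zᶜ then X ⟨v, h⟩ else if v = Sum.inr 0 then 1 else 0
  have sp : ∀ (F : MvPolynomial (Fin (r + 1)) L) (q : Fin (r + 1) → L), F.IsHomogeneous d →
      eval (Pi.single 0 1) F = 0 → q 0 = 1 → (∀ j : Fin (r + 1), n < j.val → q j = 0) →
      ∀ g ∈ RingHom.ker θ, ev L d F q g = 0 := fun F q a b c e g hg => by
    have : ev L d F q = (aeval fun v : ↥Zᶜ => ev L d F q (X v.1)).comp θ := by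
      refine MvPolynomial.algHom_ext fun v => ?_
      rw [AlgHom.comp_apply, aeval_X]
      split_ifs with h h'
      · rw [aeval_X]
      · rw [h', ev_inr, c, map_one]
      · rw [map_zero]
        simp only [Z, Finset.mem_compl, not_not, Finset.mem_insert, Finset.mem_map,
          Finset.mem_Ioi, Function.Embedding.coeFn_mk] at h
        rcases h with rfl | ⟨j, rfl | hj, rfl⟩
        · rw [ev_inl, ← eval_e0 a, b]
        · exact absurd rfl h'
        · rw [ev_inr, e j hj]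
    rw [this, AlgHom.comp_apply, RingHom.mem_ker.1 hg, map_zero]
  have := (ht.succ (RingHom.ker_isPrime θ) (le_trans (fun g hg => mem_van.2 fun F q h =>
    sp F q (hB.hom _ _ _ h.1) (hB.on _ _ _ h.1) h.2.1 h.2.2 g hg) hle) (hle h1) fun h =>
      h4 _ (sp F₀ (Pi.single 0 1) h2 h3 (by simp) (fun j hj => Pi.single_eq_of_ne (by
        rintro rfl; simp at hj) _) f h)).le θ
  rw [Fintype.card_coe, Finset.card_compl, hZ, Fintype.card_sum, Fintype.card_fin] at this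
  omega

theorem grass [IsAlgClosed L] (hB : Bad d B) {n : ℕ} (hn : n ≤ r) (hr : 2 * n ≤ r + 2)
    (Δ : Un L (Fin (r + 1)) d) (F₁ : MvPolynomial (Fin (r + 1)) L) (p₁ : Fin (r + 1) → L)
    (h1 : F₁.IsHomogeneous d) (h2 : eval p₁ F₁ = 0) (h3 : p₁ 0 = 1) (h4 : ev L d F₁ p₁ Δ ≠ 0)
    (h5 : ∀ F p, B r F p → ev L d F p Δ = 0) (i : Fin (r + 1)) :
    ∃ D : MvPolynomial (Option (Mon (Fin (r + 1)) d)) L, D ≠ 0 ∧ ∀ F p, B n F p →
      aeval (fun o : Option (Mon (Fin (r + 1)) d) => o.elim (p i) fun μ => coeff μ.1 F) D = 0 := by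
  obtain ⟨f, F₀, a1, a2, a3, a4⟩ := top_elt hB n Δ F₁ p₁ h1 h2 h3 h4 h5
  by_contra hc
  push Not at hc
  let A := Un L (Fin (r + 1)) d
  let y : Option (Mon (Fin (r + 1)) d) → A := fun o => o.elim (X (Sum.inr i)) fun μ => X (Sum.inl μ)
  obtain ⟨P, hP, hJ, hd⟩ := (van d {x | B n x.1 x.2}).exists_le_prime_disjoint
    ((nonZeroDivisors _).map (aeval y : MvPolynomial _ L →ₐ[L] A)) (by
      rw [Set.disjoint_left]
      rintro _ hg ⟨g, hg', rfl⟩
      obtain ⟨F, p, b1, b2⟩ := hc g (nonZeroDivisors.ne_zero hg')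
      refine b2 ?_
      rw [← mem_van.1 hg F p b1, ← AlgHom.comp_apply, comp_aeval]
      congr 2
      funext o
      cases o <;> simp [y])
  let q : Fin (r + 1) → A := fun i => X (Sum.inr i)
  let Γ : ℤ → A →ₐ[L] A := fun c => ev L d (bind₁ (tv 0 (up c q)) (uf L _ d)) q
  have key : ∀ (E : Type u) [CommRing E] [Algebra L E] (F : MvPolynomial (Fin (r + 1)) E)
      (p : Fin (r + 1) → E) c g, F.IsHomogeneous d →
      ev L d F p (Γ c g) = ev L d (bind₁ (tv 0 (up c p)) F) p g := fun E _ _ F p c g hF => by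
    rw [map_ev, map_tv, map_uf hF, map_up]
    simp [q]
  have inv : ∀ g, Γ 1 (Γ (-1) g) = g := fun g => by
    rw [key A _ _ _ _ (bind_hom _ _ uf_hom), tv_inv (by simp [up]) fun i => by
      rw [up_neg, neg_neg], ev_uf]
  obtain ⟨Q, hQ, hD⟩ := chain hB a1 a2 a3 a4 (P := P.comap (Γ 1)) (Ideal.comap_isPrime _ _)
    (fun g hg => hJ (mem_van.2 fun F p h => by
      replace h : B n F p := h
      rw [key L _ _ _ _ (hB.hom _ _ _ h)]
      refine mem_van.1 hg _ _ ⟨?_, hB.p0 _ _ _ h, hB.pm _ _ _ h⟩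
      convert hB.tr _ _ _ 0 (up 1 p) h (by simp [up]) (by simp [up])
        (fun j hj => by simp [up, hB.pm _ _ _ h j hj]) using 2 with j
      by_cases hj : j = 0 <;> simp [up, hj, hB.p0 _ _ _ h]))
    (t := Fintype.card (Mon (Fin (r + 1)) d) + 1)
    ⟨_, inferInstance, fun o => Γ (-1) (y o), by simp, fun g hg => by
      rw [Ideal.mem_comap, ← comp_aeval, AlgHom.comp_apply, inv] at hg
      by_contra h0
      exact Set.disjoint_left.1 hd hg ⟨g, mem_nonZeroDivisors_of_ne_zero h0, rfl⟩⟩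
    (r - n) (by omega)
  rw [show n + (r - n) = r by omega] at hQ
  have := gen_pt hB hn a1 a2 a3 a4 hQ.1.2 hD
  omega

end Pool.Agent.P.MP_6f117a_ag.H
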