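import Pool.Agent.P.MP_6f117a_ag.H.Top
import Pool.Agent.P.MP_6f117a_ag.H.Grass

/-! General hypersurfaces of degree at least `2 n` in projective space of dimension `n`. -/

set_option autoImplicit false

namespace Pool.Agent.P.MP_6f117a_ag.H

open MvPolynomial PJ Sum

universe u

variable {L : Type u} [Field L] [IsAlgClosed L] [CharZero L] {r d : ℕ}

/-- `p` lies on a curve of large degree on `F = 0` inside the coordinate plane of dimension `m`. -/
def BadP (d α m : ℕ) (F : MvPolynomial (Fin (r + 1)) L) (p : Fin (r + 1) → L) : Prop :=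
  F.IsHomogeneous d ∧ ∃ (K : Type u) (_ : Field K) (_ : Algebra L K) (_ : FF L K)
    (ξ : Fin (r + 1) → K), ξ 0 = 1 ∧ (∀ i : Fin (r + 1), m < i.val → ξ i = 0) ∧ aeval ξ F = 0 ∧
      (α * genus L K : ℤ) < degree L ξ ∧
      ∀ G : MvPolynomial (Fin (r + 1)) L, aeval ξ G = 0 → eval p G = 0

theorem deg_le {K : Type u} [Field K] [Algebra L K] [FF L K] {n : ℕ} {ξ : Fin (n + 1) → K}
    {η : Fin (r + 1) → K} (hξ : ξ ≠ 0) (R : Fin (n + 1) → MvPolynomial (Fin (r + 1)) L)
    (hR : ∀ i, (R i).IsHomogeneous 1) (h : ∀ i, aeval η (R i) = ξ i) :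
    degree L ξ ≤ degree L η := by
  obtain rfl : (fun i => aeval η (R i)) = ξ := funext h
  have h0 : η ≠ 0 := fun e => hξ (funext fun i => by
    simpa [e] using hscale (hR i) (0 : K) η)
  simpa using (t_HT L K r η h0).2.2.1 n 1 R hR hξ

theorem badP (α : ℕ) : Bad d (BadP (L := L) (r := r) d α) where
  hom _ _ _ h := h.1
  on _ _ _ := fun ⟨_, _, _, _, _, _, _, _, h, _, h'⟩ => h' _ h
  p0 _ _ _ := fun ⟨_, _, _, _, _, _, h, _, _, _, h'⟩ => by
    have := h' (X 0 - 1) (by simp [h])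
    simpa [sub_eq_zero] using this
  pm _ _ _ := fun ⟨_, _, _, _, _, _, _, h, _, _, h'⟩ i hi => by
    have := h' (X i) (by simp [h i hi])
    simpa using this
  mono _ _ _ := fun ⟨a, K, _, _, _, ξ, h0, h1, h⟩ =>
    ⟨a, K, _, _, ‹_›, ξ, h0, fun i hi => h1 i (by omega), h⟩
  tr m F p k w := fun ⟨a, K, _, _, _, ξ, h0, h1, h2, h3, h4⟩ b1 b2 b3 => by
    refine ⟨bind_hom _ _ a, K, _, _, ‹_›, fun i => ξ i - algebraMap L K (w i) * ξ k,
      by simp [h0, b2], fun i hi => by simp [h1 i hi, b3 i hi], ?_, h3.trans_le (deg_le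
        (fun e => one_ne_zero (h0.symm.trans (congrFun e 0))) (tv k w) (tv_hom k w)
        fun i => by simp [tv, b1]), fun G hG => ?_⟩
    · rw [aeval_tv]
      simpa [b1] using h2
    · have := h4 (bind₁ (tv k fun i => -w i) G) (by
        rw [aeval_tv]
        simpa [sub_eq_add_neg] using hG)
      rw [← coe_aeval_eq_eval, RingHom.coe_coe, aeval_tv] at this
      simpa [sub_eq_add_neg] using this
  add m F p j H e := fun ⟨a, K, _, _, _, ξ, h0, h1, h2, h⟩ hj hH he =>
    ⟨a.add (by rw [← he, add_comm e]; exact (isHomogeneous_X L j).mul hH), K, _, _, ‹_›, ξ, h0, h1,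
      by simp [h2, h1 j hj], h⟩

theorem plane {n : ℕ} (hn : n ≤ r) (hr : 2 * n ≤ r + 2) (hd : r + 2 ≤ d) :
    ∃ (α : ℕ) (Δ : MvPolynomial (Mon (Fin (r + 1)) d) L), Δ ≠ 0 ∧
      ∀ F : MvPolynomial (Fin (r + 1)) L, F.IsHomogeneous d →
        eval (fun μ => coeff μ.1 F) Δ ≠ 0 → ∀ (K : Type u) [Field K] [Algebra L K] [FF L K]
          (ξ : Fin (r + 1) → K), ξ 0 = 1 → (∀ i : Fin (r + 1), n < i.val → ξ i = 0) →
            aeval ξ F = 0 → degree L ξ ≤ α * genus L K := by
  obtain ⟨α, Δ, F₁, p₁, h1, h2, h3, h4, h5⟩ := top_lv L hd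
  choose D hD hD' using grass (badP α) hn hr Δ F₁ p₁ h1 h2 h3 h4 (by
    rintro F p ⟨a, K, _, _, _, ξ, b0, -, b2, b3, b4⟩
    have e : ∀ (E : Type u) [CommRing E] [Algebra L E] (η : Fin (r + 1) → E),
        aeval η (ev L d (map C F) X Δ) = ev L d (map (algebraMap L E) F) η Δ := fun E _ _ η => by
      rw [map_ev, MvPolynomial.map_map, RingHom.ext (f := RingHom.comp _ C)
        (g := algebraMap L E) fun c => by simp]
      simp
    have := b4 _ ((e K ξ).trans (by_contra fun h => b3.not_ge (h5 K F ξ a b0 b2 h)))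
    rwa [← coe_aeval_eq_eval, RingHom.coe_coe, e, Algebra.algebraMap_self, map_id] at this)
  refine ⟨α, ∏ i, (optionEquivLeft L _ (D i)).leadingCoeff, Finset.prod_ne_zero_iff.2 fun i _ =>
    Polynomial.leadingCoeff_ne_zero.2 (by simpa using hD i), fun F hF h K _ _ _ ξ b0 b1 b2 => ?_⟩
  by_contra hc
  have hξ : ξ ≠ 0 := fun e => one_ne_zero (b0.symm.trans (congrFun e 0))
  have alg : ∀ i, IsAlgebraic L (ξ i) := fun i => by
    have e : ∀ (E : Type u) [CommRing E] [Algebra L E] (η : Fin (r + 1) → E),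
        aeval η (aeval (fun o : Option (Mon (Fin (r + 1)) d) =>
          o.elim (X i : MvPolynomial (Fin (r + 1)) L) fun μ => C (coeff μ.1 F)) (D i)) =
        aeval (fun o : Option (Mon (Fin (r + 1)) d) =>
          o.elim (η i) fun μ => algebraMap L E (coeff μ.1 F)) (D i) := fun E _ _ η => by
      rw [comp_aeval_apply]
      congr 2
      funext o
      cases o <;> simp
    have := RingHom.ker_isPrime (aeval (R := L) ξ)
    have a1 := (IsPrime.vanishingIdeal_zeroLocus (K := L) (RingHom.ker (aeval (R := L) ξ))).le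
      fun p hp => (e L p).trans (hD' i F p ⟨hF, K, _, _, ‹_›, ξ, b0, b1, b2, not_le.1 hc, hp⟩)
    rw [RingHom.mem_ker, e, aeval_option] at a1
    refine ⟨(optionEquivLeft L _ (D i)).map (eval fun μ => coeff μ.1 F), fun e1 => ?_, ?_⟩
    · rw [map_prod] at h
      refine Finset.prod_ne_zero_iff.1 h i (Finset.mem_univ _) ?_
      rw [Polynomial.leadingCoeff, ← Polynomial.coeff_map, e1, Polynomial.coeff_zero]
    · rw [Polynomial.aeval_def, Polynomial.eval₂_map, ← a1]
      congr 1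
      ext <;> simp
  have := (t_HT L K r ξ hξ).2.2.2 0 0 (b0 ▸ one_ne_zero) fun j hj =>
    absurd (by simpa [b0] using alg j) hj
  refine hc (le_trans (by simpa using this) ?_)
  positivity

theorem general {n : ℕ} (hn : 2 ≤ n) (hd : 2 * n ≤ d) :
    ∃ (α : ℕ) (Δ : MvPolynomial (Mon (Fin (n + 1)) d) L), Δ ≠ 0 ∧
      ∀ F : MvPolynomial (Fin (n + 1)) L, F.IsHomogeneous d →
        eval (fun μ => coeff μ.1 F) Δ ≠ 0 → ∀ (K : Type u) [Field K] [Algebra L K] [FF L K]
          (ξ : Fin (n + 1) → K), ξ ≠ 0 → aeval ξ F = 0 → degree L ξ ≤ α * genus L K := by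
  classical
  obtain ⟨r, hr⟩ : ∃ r, 2 * n = r + 2 := ⟨2 * n - 2, by omega⟩
  have hle : n + 1 ≤ r + 1 := by omega
  obtain ⟨α, Δ, hΔ, h⟩ := plane (L := L) (n := n) (r := r) (d := d) (by omega) hr.le (by omega)
  obtain ⟨c, hc⟩ : ∃ c, eval c Δ ≠ 0 := by
    by_contra hc
    push Not at hc
    exact hΔ (MvPolynomial.funext fun a => (hc a).trans (map_zero _).symm)
  let ι : Fin (n + 1) → Fin (n + 1) → Fin (r + 1) := fun l i => Fin.castLE hle (Equiv.swap 0 l i)
  have hι : ∀ l, Function.Injective (ι l) := fun l =>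
    (Fin.castLE_injective hle).comp (Equiv.injective _)
  have kh : ∀ l, (killCompl (hι l) (frm c)).IsHomogeneous d := fun l μ hμ => by
    rw [coeff_killCompl] at hμ
    rw [← frm_hom c hμ, Finsupp.weight_apply, Finsupp.weight_apply,
      Finsupp.sum_mapDomain_index (by simp) (by simp)]
    rfl
  let G : Fin (n + 1) → MvPolynomial (Fin (r + 1)) L := fun l =>
    frm c - rename (ι l) (killCompl (hι l) (frm c))
  let Δ' : Fin (n + 1) → MvPolynomial (Mon (Fin (n + 1)) d) L := fun l => aeval (fun μ =>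
    coeff μ.1 (map C (G l) + rename (ι l) (frm fun ν : Mon (Fin (n + 1)) d => X ν))) Δ
  have key : ∀ l (F : MvPolynomial (Fin (n + 1)) L), F.IsHomogeneous d →
      eval (fun μ => coeff μ.1 F) (Δ' l) =
        eval (fun μ => coeff μ.1 (G l + rename (ι l) F)) Δ := fun l F hF => by
    have e : map (eval fun μ : Mon (Fin (n + 1)) d => coeff μ.1 F)
        (frm fun ν : Mon (Fin (n + 1)) d => X ν) = F :=
      hom_ext ((frm_hom _).map _) hF fun μ => by simp [coeff_map, coeff_frm]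
    rw [← coe_aeval_eq_eval, ← coe_aeval_eq_eval, RingHom.coe_coe, RingHom.coe_coe,
      comp_aeval_apply]
    congr 2
    funext μ
    conv_rhs => rw [← e, ← map_rename]
    simp [coeff_map]
  refine ⟨α, ∏ l, Δ' l, Finset.prod_ne_zero_iff.2 fun l _ e => hc ?_,
    fun F hF h0 K _ _ _ ξ hξ h1 => ?_⟩
  · have := key l _ (kh l)
    rw [e, map_zero] at this
    simpa [G, coeff_frm] using this.symm
  obtain ⟨l, hl⟩ := Function.ne_iff.1 hξ
  replace hl : ξ l ≠ 0 := hl
  rw [map_prod] at h0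
  have h2 := Finset.prod_ne_zero_iff.1 h0 l (Finset.mem_univ _)
  rw [key l F hF] at h2
  set ξ' : Fin (n + 1) → K := fun i => (ξ l)⁻¹ * ξ i
  let η : Fin (r + 1) → K := fun j => aeval ξ' (killCompl (R := L) (hι l) (X j))
  have e1 : ∀ H : MvPolynomial (Fin (r + 1)) L, aeval η H = aeval ξ' (killCompl (hι l) H) :=
    fun H => by
      rw [← AlgHom.comp_apply]
      congr 1
      ext j
      simp [η]
  have e2 : ∀ i, η (ι l i) = ξ' i := fun i => by
    simp only [η]
    rw [← rename_X, killCompl_rename_app, aeval_X]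
  have e3 : ι l l = 0 := by simp [ι]
  have e4 : ξ' l = 1 := inv_mul_cancel₀ hl
  rw [← (t_HT L K n ξ hξ).2.1 _ (inv_ne_zero hl)]
  refine (deg_le (fun e => one_ne_zero (e4.symm.trans (congrFun e l))) (fun i => X (ι l i))
    (fun i => isHomogeneous_X _ _) fun i => (aeval_X _ _).trans (e2 i)).trans
    (h _ (((frm_hom c).sub (kh l).rename_isHomogeneous).add hF.rename_isHomogeneous) h2 K η
      (by rw [← e3, e2, e4]) (fun j hj => ?_) ?_)
  · simp only [η, killCompl, aeval_X]
    rw [dif_neg, map_zero]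
    rintro ⟨i, rfl⟩
    have := (Equiv.swap 0 l i).2
    simp only [ι, Fin.val_castLE] at hj
    omega
  · rw [e1, map_add, map_sub, killCompl_rename_app, killCompl_rename_app, sub_self, zero_add,
      hscale hF, h1, mul_zero]

end Pool.Agent.P.MP_6f117a_ag.H
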