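import Mathlib

/-! Chains of prime ideals, independent families, and the universal form. -/

set_option autoImplicit false

namespace Pool.Agent.P.MP_6f117a_ag.H

open MvPolynomial

universe u

section

variable (L : Type u) [Field L] {A : Type u} [CommRing A] [Algebra L A]

/-- There are `t` elements which are algebraically independent modulo `P`. -/
def Dim (P : Ideal A) (t : ℕ) : Prop :=
  ∃ (ι : Type) (_ : Fintype ι) (y : ι → A), Fintype.card ι = t ∧
    ∀ g : MvPolynomial ι L, aeval y g ∈ P → g = 0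

variable {L}

theorem Dim.mono {P Q : Ideal A} {t : ℕ} (h : Dim L P t) (hQ : Q ≤ P) : Dim L Q t := by
  obtain ⟨ι, _, y, h1, h2⟩ := h
  exact ⟨ι, _, y, h1, fun g hg => h2 g (hQ hg)⟩

theorem aeval_option {ι : Type} (a : A) (y : ι → A) (g : MvPolynomial (Option ι) L) :
    aeval (fun o : Option ι => o.elim a y) g =
      Polynomial.eval₂ (aeval y : MvPolynomial ι L →ₐ[L] A).toRingHom a
        (optionEquivLeft L ι g) := by
  induction g using MvPolynomial.induction_on with
  | C c => simp [optionEquivLeft_C]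
  | add f g hf hg => simp only [map_add, Polynomial.eval₂_add, hf, hg]
  | mul_X f o hf =>
    rw [map_mul, map_mul, Polynomial.eval₂_mul, hf]
    cases o <;> simp [optionEquivLeft_X_none, optionEquivLeft_X_some]

theorem Dim.succ {P Q : Ideal A} {t : ℕ} (h : Dim L P t) (hQ : Q.IsPrime) (hle : Q ≤ P) {a : A}
    (ha : a ∈ P) (ha' : a ∉ Q) : Dim L Q (t + 1) := by
  obtain ⟨ι, _, y, h1, h2⟩ := h
  refine ⟨Option ι, inferInstance, fun o => o.elim a y, by simp [h1], fun g hg => ?_⟩
  rw [aeval_option] at hg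
  apply (optionEquivLeft L ι).injective
  rw [map_zero]
  by_contra hp
  obtain ⟨q, e, hq⟩ := Polynomial.exists_eq_pow_rootMultiplicity_mul_and_not_dvd _ hp 0
  rw [e, Polynomial.eval₂_mul, Polynomial.eval₂_pow] at hg
  simp only [map_zero, sub_zero, Polynomial.eval₂_X] at hg hq
  have h3 := (hQ.mem_or_mem hg).resolve_left fun h => ha' (hQ.mem_of_pow_mem _ h)
  rw [← Polynomial.X_mul_divX_add q, Polynomial.eval₂_add, Polynomial.eval₂_mul,
    Polynomial.eval₂_X, Polynomial.eval₂_C] at h3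
  exact hq (Polynomial.X_dvd_iff.2 (h2 _ ((P.add_mem_iff_right (P.mul_mem_right _ ha)).1 (hle h3))))

theorem Dim.le {κ : Type} [Fintype κ] (θ : A →ₐ[L] MvPolynomial κ L) {t : ℕ}
    (h : Dim L (RingHom.ker θ) t) : t ≤ Fintype.card κ := by
  obtain ⟨ι, _, y, h1, h2⟩ := h
  have h3 : AlgebraicIndependent L fun i => θ (y i) := algebraicIndependent_iff.2 fun g hg =>
    h2 g (by rw [RingHom.mem_ker, ← AlgHom.comp_apply, comp_aeval]; exact hg)
  have h4 := h3.lift_cardinalMk_le_trdeg
  rw [MvPolynomial.trdeg_of_isDomain] at h4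
  simpa [h1] using h4

/-- Minimal primes are stable under one parameter families. -/
theorem stab [Infinite L] {I P : Ideal A} (hP : P ∈ I.minimalPrimes) (Γ : A →ₐ[L] Polynomial A)
    (h0 : ∀ f, (Γ f).eval 0 = f) (hI : ∀ f ∈ I, ∀ c : L, (Γ f).eval (algebraMap L A c) ∈ I) :
    ∀ f ∈ P, ∀ c : L, (Γ f).eval (algebraMap L A c) ∈ P := by
  have := hP.1.1
  let ψ : A →+* Polynomial (A ⧸ P) :=
    (Polynomial.mapRingHom (Ideal.Quotient.mk P)).comp Γ.toRingHom
  have e : ∀ f (a : A), (ψ f).eval (Ideal.Quotient.mk P a) = 0 ↔ (Γ f).eval a ∈ P := fun f a => by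
    rw [← Ideal.Quotient.eq_zero_iff_mem, ← Polynomial.eval₂_at_apply, ← Polynomial.eval_map]
    rfl
  have h1 : I ≤ RingHom.ker ψ := fun f hf => by
    refine Polynomial.eq_zero_of_infinite_isRoot _ ((Set.infinite_range_of_injective
      (algebraMap L (A ⧸ P)).injective).mono ?_)
    rintro _ ⟨c, rfl⟩
    exact (e f _).2 (hP.1.2 (hI f hf c))
  have h2 : RingHom.ker ψ ≤ P := fun f hf => by
    have := (e f 0).1 (by rw [RingHom.mem_ker.1 hf, Polynomial.eval_zero])
    rwa [h0] at this
  intro f hf c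
  exact (e f _).1 (by
    rw [RingHom.mem_ker.1 (hP.2 ⟨RingHom.ker_isPrime ψ, h1⟩ h2 hf), Polynomial.eval_zero])

end

/-- The monomials of degree `d`. -/
abbrev Mon (σ : Type) (d : ℕ) : Type := {μ : σ →₀ ℕ // μ.degree = d}

noncomputable instance (σ : Type) [Finite σ] (d : ℕ) : Fintype (Mon σ d) :=
  (Finsupp.finite_of_degree_eq d).fintype

/-- Polynomials in the coefficients of a form and the coordinates of a point. -/
abbrev Un (L : Type u) [Field L] (σ : Type) (d : ℕ) : Type u := MvPolynomial (Mon σ d ⊕ σ) L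

section

variable {L : Type u} [Field L] {σ : Type} {d : ℕ} {E E' : Type u} [CommRing E] [CommRing E']

/-- The substitution `x ↦ x + x_k w`. -/
noncomputable def tv (k : σ) (w : σ → E) (i : σ) : MvPolynomial σ E := X i + C (w i) * X k

theorem tv_hom (k : σ) (w : σ → E) (i : σ) : (tv k w i).IsHomogeneous 1 :=
  (isHomogeneous_X _ i).add ((isHomogeneous_X _ k).C_mul _)

theorem bind_hom (k : σ) (w : σ → E) {F : MvPolynomial σ E} (h : F.IsHomogeneous d) :
    (bind₁ (tv k w) F).IsHomogeneous d := by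
  simpa using h.aeval (tv k w) (tv_hom k w)

theorem map_tv (φ : E →+* E') (k : σ) (w : σ → E) (F : MvPolynomial σ E) :
    map φ (bind₁ (tv k w) F) = bind₁ (tv k fun i => φ (w i)) (map φ F) := by
  rw [map_bind₁]
  congr 2
  funext i
  simp [tv]

theorem tv_inv {k : σ} {w w' : σ → E} (h : w k = 0) (h' : ∀ i, w' i = -w i)
    (F : MvPolynomial σ E) : bind₁ (tv k w) (bind₁ (tv k w') F) = F := by
  rw [bind₁_bind₁]
  have : (fun i => bind₁ (tv k w) (tv k w' i)) = X := by
    funext i
    simp [tv, h, h']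
  rw [this, bind₁_X_left, AlgHom.id_apply]

theorem tv_zero (k : σ) {w : σ → E} (h : ∀ i, w i = 0) (F : MvPolynomial σ E) :
    bind₁ (tv k w) F = F := by
  have : tv k w = X := by
    funext i
    simp [tv, h]
  rw [this, bind₁_X_left, AlgHom.id_apply]

theorem aeval_tv [Algebra E E'] (k : σ) (w : σ → E) (F : MvPolynomial σ E) (ξ : σ → E') :
    aeval ξ (bind₁ (tv k w) F) = aeval (fun i => ξ i + algebraMap E E' (w i) * ξ k) F := by
  rw [aeval_bind₁]
  simp [tv]

variable [Algebra L E] [Algebra L E']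

variable (L d) in
/-- Evaluation at a form and a point. -/
noncomputable def ev (F : MvPolynomial σ E) (q : σ → E) : Un L σ d →ₐ[L] E :=
  aeval (Sum.elim (fun μ => coeff μ.1 F) q)

@[simp] theorem ev_inl (F : MvPolynomial σ E) (q : σ → E) (μ : Mon σ d) :
    ev L d F q (X (Sum.inl μ)) = coeff μ.1 F := aeval_X _ _

@[simp] theorem ev_inr (F : MvPolynomial σ E) (q : σ → E) (i : σ) :
    ev L d F q (X (Sum.inr i)) = q i := aeval_X _ _

theorem map_ev (φ : E →ₐ[L] E') (F : MvPolynomial σ E) (q : σ → E) (f : Un L σ d) :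
    φ (ev L d F q f) = ev L d (map (φ : E →+* E') F) (fun i => φ (q i)) f := by
  rw [← AlgHom.comp_apply]
  congr 1
  ext (μ | i) <;> simp [coeff_map]

variable [Finite σ]

/-- The form with given coefficients. -/
noncomputable def frm (c : Mon σ d → E) : MvPolynomial σ E := ∑ μ, monomial μ.1 (c μ)

theorem frm_hom (c : Mon σ d → E) : (frm c).IsHomogeneous d :=
  IsHomogeneous.sum _ _ _ fun μ _ => isHomogeneous_monomial _ μ.2

theorem coeff_frm (c : Mon σ d → E) (μ : Mon σ d) : coeff μ.1 (frm c) = c μ := by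
  classical
  rw [frm, coeff_sum, Finset.sum_eq_single μ (fun ν _ h => by
    rw [coeff_monomial, if_neg fun e => h (Subtype.ext e)]) (by simp), coeff_monomial, if_pos rfl]

theorem hom_ext {F G : MvPolynomial σ E} (hF : F.IsHomogeneous d) (hG : G.IsHomogeneous d)
    (h : ∀ μ : Mon σ d, coeff μ.1 F = coeff μ.1 G) : F = G := by
  ext μ
  by_cases e : μ.degree = d
  · exact h ⟨μ, e⟩
  · rw [hF.coeff_eq_zero e, hG.coeff_eq_zero e]

theorem frm_coeff {F : MvPolynomial σ E} (hF : F.IsHomogeneous d) :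
    frm (fun μ : Mon σ d => coeff μ.1 F) = F :=
  hom_ext (frm_hom _) hF fun μ => coeff_frm _ μ

variable (L σ d) in
/-- The universal form. -/
noncomputable def uf : MvPolynomial σ (Un L σ d) := frm fun μ : Mon σ d => X (Sum.inl μ)

theorem uf_hom : (uf L σ d).IsHomogeneous d := frm_hom _

theorem map_uf {F : MvPolynomial σ E} (hF : F.IsHomogeneous d) (q : σ → E) :
    map (ev L d F q : Un L σ d →+* E) (uf L σ d) = F :=
  hom_ext (uf_hom.map _) hF fun μ => by simp [coeff_map, uf, coeff_frm]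

theorem ev_frm (a : Mon σ d ⊕ σ → E) :
    ev L d (frm fun μ => a (Sum.inl μ)) (fun i => a (Sum.inr i)) = aeval a := by
  ext (μ | i) <;> simp [coeff_frm]

theorem ev_uf (f : Un L σ d) : ev L d (uf L σ d) (fun i => X (Sum.inr i)) f = f := by
  rw [uf, ev_frm, aeval_X_left, AlgHom.id_apply]

end

end Pool.Agent.P.MP_6f117a_ag.H
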