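import Pool.Agent.P.MP_6f117a_ag.H.Cauchy
import Pool.Agent.P.MP_6f117a_ag.PJ.Final

/-! Smooth hypersurfaces in a product of two projective spaces: the Segre model. -/

set_option autoImplicit false

namespace Pool.Agent.P.MP_6f117a_ag.H

open MvPolynomial PJ Sum

universe u

variable {L K : Type u} [Field L] [Field K] [Algebra L K] {σ τ : Type}

/-- The first weight. -/
def wa : σ ⊕ τ → ℕ := Sum.elim (fun _ => 1) fun _ => 0

/-- The second weight. -/
def wb : σ ⊕ τ → ℕ := Sum.elim (fun _ => 0) fun _ => 1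

/-- Bihomogeneous polynomials. -/
def Bi (P : MvPolynomial (σ ⊕ τ) L) (a b : ℕ) : Prop :=
  P.IsWeightedHomogeneous wa a ∧ P.IsWeightedHomogeneous wb b

theorem Bi.hom {P : MvPolynomial (σ ⊕ τ) L} {a b : ℕ} (h : Bi P a b) : P.IsHomogeneous (a + b) :=
  fun m hm => by
    rw [← h.1 hm, ← h.2 hm, Finsupp.weight_apply, Finsupp.weight_apply, Finsupp.weight_apply,
      Finsupp.sum, Finsupp.sum, Finsupp.sum, ← Finset.sum_add_distrib]
    refine Finset.sum_congr rfl fun v _ => ?_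
    cases v <;> simp [wa, wb]

theorem Bi.mul {P Q : MvPolynomial (σ ⊕ τ) L} {a b a' b' : ℕ} (h : Bi P a b) (h' : Bi Q a' b') :
    Bi (P * Q) (a + a') (b + b') := ⟨h.1.mul h'.1, h.2.mul h'.2⟩

theorem bi_X (v : σ ⊕ τ) : Bi (X v : MvPolynomial (σ ⊕ τ) L) (wa v) (wb v) :=
  ⟨isWeightedHomogeneous_X _ _ _, isWeightedHomogeneous_X _ _ _⟩

theorem bi_C (c : L) : Bi (C c : MvPolynomial (σ ⊕ τ) L) 0 0 :=
  ⟨isWeightedHomogeneous_C _ _, isWeightedHomogeneous_C _ _⟩

theorem bi_pow (i : σ) (j : τ) (a b : ℕ) :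
    Bi (X (inl i) ^ a * X (inr j) ^ b : MvPolynomial (σ ⊕ τ) L) a b := by
  have h1 := ((bi_X (L := L) (inl i : σ ⊕ τ)).1.pow a).mul ((bi_X (inr j)).1.pow b)
  have h2 := ((bi_X (L := L) (inl i : σ ⊕ τ)).2.pow a).mul ((bi_X (inr j)).2.pow b)
  exact ⟨by simpa [wa] using h1, by simpa [wb] using h2⟩

theorem Bi.cast {P : MvPolynomial (σ ⊕ τ) L} {a b a' b' : ℕ} (h : Bi P a b) (h1 : a = a')
    (h2 : b = b') : Bi P a' b' := h1 ▸ h2 ▸ h

/-- The coordinate by which one divides in a chart. -/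
def piv (i : σ) (j : τ) : σ ⊕ τ → σ ⊕ τ := Sum.elim (fun _ => inl i) fun _ => inr j

theorem bi_piv (i : σ) (j : τ) (v : σ ⊕ τ) :
    Bi (X (piv i j v) : MvPolynomial (σ ⊕ τ) L) (wa v) (wb v) := by
  cases v <;> exact bi_X _

theorem wa_le (v : σ ⊕ τ) : wa v ≤ 1 := by cases v <;> simp [wa]

theorem wb_le (v : σ ⊕ τ) : wb v ≤ 1 := by cases v <;> simp [wb]

theorem Bi.der {P : MvPolynomial (σ ⊕ τ) L} {a b : ℕ} (h : Bi P a b) (ha : 0 < a) (hb : 0 < b)
    (i : σ) (j : τ) (v : σ ⊕ τ) : Bi (X (piv i j v) * pderiv v P) a b := by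
  have h1 := wa_le v
  have h2 := wb_le v
  exact ((bi_piv i j v).mul ⟨h.1.pderiv (n' := a - wa v) (by omega),
    h.2.pderiv (n' := b - wb v) (by omega)⟩).cast (by omega) (by omega)

variable {M : ℕ} (ε : Fin M ≃ σ × τ)

/-- The Segre coordinates. -/
def seg {A : Type u} [Mul A] (y : σ ⊕ τ → A) (m : Fin M) : A := y (inl (ε m).1) * y (inr (ε m).2)

/-- A row and a column of the Segre matrix. -/
def ren (i : σ) (j : τ) : σ ⊕ τ → Fin M :=
  Sum.elim (fun i' => ε.symm (i', j)) fun j' => ε.symm (i, j')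

theorem aeval_ren (y : σ ⊕ τ → K) (i : σ) (j : τ) {P : MvPolynomial (σ ⊕ τ) L} {a b : ℕ}
    (h : Bi P a b) : aeval (seg ε y) (rename (ren ε i j) P) =
      y (inr j) ^ a * (y (inl i) ^ b * aeval y P) := by
  rw [aeval_rename, ← wscale h.2, ← wscale h.1]
  congr 2
  funext v
  cases v <;> simp [seg, ren, wa, wb, mul_comm]

theorem mem_loc (y : σ ⊕ τ → K) {i : σ} {j : τ} (hi : y (inl i) ≠ 0) (hj : y (inr j) ≠ 0)
    {a : Fin M → L} {P Q : MvPolynomial (σ ⊕ τ) L} {e e' : ℕ} (hP : Bi P e e') (hQ : Bi Q e e')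
    (h : eval (a ∘ ren ε i j) Q ≠ 0) : aeval y P / aeval y Q ∈ locRing L (seg ε y) a :=
  ⟨e + e', rename (ren ε i j) P, rename (ren ε i j) Q, hP.hom.rename_isHomogeneous,
    hQ.hom.rename_isHomogeneous, by rwa [eval_rename], by
      rw [aeval_ren ε y i j hP, aeval_ren ε y i j hQ, mul_div_mul_left _ _ (pow_ne_zero _ hj),
        mul_div_mul_left _ _ (pow_ne_zero _ hi)]⟩

theorem weuler {β : Type} [Fintype β] {w : β → ℕ} {P : MvPolynomial β L} {e : ℕ}
    (h : P.IsWeightedHomogeneous w e) (v : β → K) (h0 : aeval v P = 0) :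
    ∑ b, (w b * v b) * aeval v (pderiv b P) = 0 := by
  have h2 := congrArg (aeval v) h.sum_weight_X_mul_pderiv
  simpa only [map_sum, map_mul, aeval_X, map_nsmul, h0, smul_zero, nsmul_eq_mul, mul_assoc,
    map_natCast, mul_zero] using h2

/-- A smooth hypersurface of bidegree `(d, k)` with a point `y` on it. -/
structure Data (d k : ℕ) (Φ : MvPolynomial (σ ⊕ τ) L) (y : σ ⊕ τ → K) : Prop where
  bi : Bi Φ d k
  on : aeval y Φ = 0
  sm : ∀ a : σ ⊕ τ → L, (∃ i, a (inl i) ≠ 0) → (∃ j, a (inr j) ≠ 0) → eval a Φ = 0 →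
    ∃ v, eval a (pderiv v Φ) ≠ 0

variable [Fintype σ] [Fintype τ] {d k : ℕ} {Φ : MvPolynomial (σ ⊕ τ) L} {y : σ ⊕ τ → K}

theorem chart (h : Data d k Φ y) {a : Fin M → L} (ha : OnY L (seg ε y) a) :
    ∃ i j c, a (ε.symm (i, j)) ≠ 0 ∧ y (inl i) ≠ 0 ∧ y (inr j) ≠ 0 ∧ c ≠ inl i ∧ c ≠ inr j ∧
      eval (a ∘ ren ε i j) (pderiv c Φ) ≠ 0 := by
  obtain ⟨m, hm⟩ := Function.ne_iff.1 ha.1
  obtain ⟨⟨i, j⟩, rfl⟩ := ε.symm.surjective m
  replace hm : a (ε.symm (i, j)) ≠ 0 := hm
  have h1 : y (inl i) * y (inr j) ≠ 0 := fun e => hm (by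
    simpa using ha.2 (X (ε.symm (i, j))) ⟨⟨_, isHomogeneous_X _ _⟩, by simpa [seg] using e⟩)
  have h2 : eval (a ∘ ren ε i j) Φ = 0 := by
    rw [← eval_rename]
    exact ha.2 _ ⟨⟨_, h.bi.hom.rename_isHomogeneous⟩, by
      rw [aeval_ren ε y i j h.bi, h.on, mul_zero, mul_zero]⟩
  refine ⟨i, j, ?_⟩
  by_contra hc
  push Not at hc
  replace hc := fun c => hc c hm (left_ne_zero_of_mul h1) (right_ne_zero_of_mul h1)
  obtain ⟨v, hv⟩ := h.sm _ ⟨i, hm⟩ ⟨j, hm⟩ h2
  have e1 := weuler (K := L) h.bi.1 _ h2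
  have e2 := weuler (K := L) h.bi.2 _ h2
  rw [Finset.sum_eq_single (inl i) (fun b _ hb => by
    by_cases e : b = inr j
    · simp [e, wa]
    · exact mul_eq_zero_of_right _ (hc b hb e)) (by simp)] at e1
  rw [Finset.sum_eq_single (inr j) (fun b _ hb => by
    by_cases e : b = inl i
    · simp [e, wb]
    · exact mul_eq_zero_of_right _ (hc b e hb)) (by simp)] at e2
  by_cases a1 : v = inl i
  · exact hv (a1 ▸ (mul_eq_zero.1 e1).resolve_left (by simpa [wa, ren] using hm))
  by_cases a2 : v = inr j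
  · exact hv (a2 ▸ (mul_eq_zero.1 e2).resolve_left (by simpa [wb, ren] using hm))
  exact hv (hc v a1 a2)

theorem pd_ren {β γ : Type} [Fintype β] [DecidableEq γ] (f : β → γ) (v : γ) (P : MvPolynomial β L) :
    pderiv v (rename f P) = ∑ b, if f b = v then rename f (pderiv b P) else 0 := by
  classical
  induction P using MvPolynomial.induction_on with
  | C c => simp
  | add P Q hP hQ =>
    simp only [map_add, hP, hQ, ← Finset.sum_add_distrib]
    exact Finset.sum_congr rfl fun b _ => by split_ifs <;> simp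
  | mul_X P c hP =>
    have : ∀ b, (if f b = v then rename f (pderiv b (P * X c)) else 0) =
        (if f b = v then rename f (pderiv b P) else 0) * X (f c) +
          if c = b then (if f c = v then rename f P else 0) else 0 := fun b => by
      by_cases h : c = b
      · subst h
        split_ifs <;> simp_all [mul_comm, add_comm]
      · split_ifs <;> simp_all [mul_comm, pderiv_X]
    simp only [this, Finset.sum_add_distrib, ← Finset.sum_mul, ← hP, Finset.sum_ite_eq,
      Finset.mem_univ, if_true]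
    simp [pderiv_X, Pi.single_apply, mul_comm, add_comm]

theorem jac (h : Data d k Φ y) {D : ℕ} (hD : D + 3 = Fintype.card σ + Fintype.card τ)
    {a : Fin M → L} (ha : OnY L (seg ε y) a) :
    ∃ (c : ℕ) (G : Fin c → MvPolynomial (Fin M) L) (J : Fin c → Fin M), c + D + 1 = M ∧
      (∀ i, Form L (seg ε y) (G i)) ∧ (Matrix.of fun i j => eval a (pderiv (J j) (G i))).det ≠ 0 := by
  classical
  obtain ⟨i, j, c, h0, -, -, h1, h2, h3⟩ := chart ε h ha
  let γ := Unit ⊕ ({i' // i' ≠ i} × {j' // j' ≠ j})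
  let G : γ → MvPolynomial (Fin M) L := Sum.elim (fun _ => rename (ren ε i j) Φ) fun q =>
    X (ε.symm (i, j)) * X (ε.symm (q.1, q.2)) - X (ε.symm (q.1, j)) * X (ε.symm (i, q.2))
  let J : γ → Fin M := Sum.elim (fun _ => ren ε i j c) fun q => ε.symm (q.1, q.2)
  let e := (Fintype.equivFin γ).symm
  refine ⟨_, G ∘ e, J ∘ e, ?_, fun l => ?_, ?_⟩
  · have b1 := Fintype.card_congr ε
    have b2 : 0 < Fintype.card σ := Fintype.card_pos_iff.2 ⟨i⟩
    have b3 : 0 < Fintype.card τ := Fintype.card_pos_iff.2 ⟨j⟩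
    simp only [γ, Fintype.card_sum, Fintype.card_prod, Fintype.card_fin, Fintype.card_unit,
      Fintype.card_subtype_compl, Fintype.card_subtype_eq, ne_eq] at b1 ⊢
    obtain ⟨s, hs⟩ := Nat.exists_eq_add_one_of_ne_zero b2.ne'
    obtain ⟨t, ht⟩ := Nat.exists_eq_add_one_of_ne_zero b3.ne'
    rw [hs, ht] at b1 hD
    rw [b1, hs, ht, Nat.add_sub_cancel, Nat.add_sub_cancel]
    nlinarith
  · rw [Function.comp_apply]
    obtain _ | q := e l
    · exact ⟨⟨_, h.bi.hom.rename_isHomogeneous⟩, by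
        simp only [G, Sum.elim_inl]
        rw [aeval_ren ε y i j h.bi, h.on, mul_zero, mul_zero]⟩
    · refine ⟨⟨_, ((isHomogeneous_X _ _).mul (isHomogeneous_X _ _)).sub
        ((isHomogeneous_X _ _).mul (isHomogeneous_X _ _))⟩, ?_⟩
      simp [G, seg]
      ring
  · have e1 : (Matrix.of fun l l' => eval a (pderiv (J l') (G l))) = Matrix.fromBlocks
        (Matrix.of fun _ _ => eval (a ∘ ren ε i j) (pderiv c Φ)) 0
        (Matrix.of fun q _ => eval a (pderiv (ren ε i j c) (G (inr q))))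
        (a (ε.symm (i, j)) • 1) := by
      ext (_ | q) (_ | q')
      · simp only [G, J, Matrix.of_apply, Sum.elim_inl, Matrix.fromBlocks_apply₁₁, pd_ren]
        rw [Finset.sum_eq_single c (fun b _ hb => if_neg fun e => by
          cases b <;> cases c <;> simp_all [ren]) (by simp), if_pos rfl, eval_rename]
      · simp only [G, J, Matrix.of_apply, Sum.elim_inl, Sum.elim_inr, Matrix.fromBlocks_apply₁₂,
          pd_ren, Matrix.zero_apply]
        rw [Finset.sum_eq_zero fun b _ => if_neg fun e => by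
          have := q'.1.2
          have := q'.2.2
          cases b <;> simp_all [ren], map_zero]
      · rfl
      · have := q.1.2
        have := q.2.2
        have := q'.1.2
        have := q'.2.2
        by_cases e : q = q'
        · subst e
          simp_all [G, J, pderiv_X, Pi.single_apply, eq_comm]
        · have e' : ¬ (q.1.1 = q'.1.1 ∧ q.2.1 = q'.2.1) := fun e' =>
            e (Prod.ext (Subtype.ext e'.1) (Subtype.ext e'.2))
          simp_all [G, J, pderiv_X, Pi.single_apply, eq_comm]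
    have e2 := Matrix.det_submatrix_equiv_self e (Matrix.of fun l l' => eval a (pderiv (J l') (G l)))
    refine fun e3 => ?_
    have e4 := e2.symm.trans e3
    rw [e1, Matrix.det_fromBlocks_zero₁₂, Matrix.det_smul,
      Matrix.det_unique, Matrix.det_one, mul_one] at e4
    exact mul_ne_zero h3 (pow_ne_zero _ h0) e4

end Pool.Agent.P.MP_6f117a_ag.H
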