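import Pool.Agent.P.MP_6f117a_ag.H.Fam

/-! The bound for the degree of curves on the universal hypersurface of general type. -/

set_option autoImplicit false

namespace Pool.Agent.P.MP_6f117a_ag.H

open MvPolynomial PJ Sum

universe u

variable (L : Type u) [Field L] [IsAlgClosed L] [CharZero L] {r d : ℕ}

/-- The monomials used for the perturbation. -/
noncomputable def pert (σ : Type) (d : ℕ) : Option (Option (Mon σ d ⊕ σ)) → MvPolynomial σ ℤ
  | some (some (inl μ)) => monomial μ.1 1
  | _ => 0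

theorem pert_hom (σ : Type) (d : ℕ) (j : Option (Option (Mon σ d ⊕ σ))) :
    (pert σ d j).IsHomogeneous d := by
  rcases j with _ | _ | μ | _
  · exact isHomogeneous_zero _ _ _
  · exact isHomogeneous_zero _ _ _
  · exact isHomogeneous_monomial _ μ.2
  · exact isHomogeneous_zero _ _ _

theorem top_lv (hd : r + 2 ≤ d) :
    ∃ (α : ℕ) (Δ : Un L (Fin (r + 1)) d) (F₁ : MvPolynomial (Fin (r + 1)) L)
      (p₁ : Fin (r + 1) → L), F₁.IsHomogeneous d ∧ eval p₁ F₁ = 0 ∧ p₁ 0 = 1 ∧
      ev L d F₁ p₁ Δ ≠ 0 ∧ ∀ (K' : Type u) [Field K'] [Algebra L K'] [FF L K']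
        (F : MvPolynomial (Fin (r + 1)) L) (ξ : Fin (r + 1) → K'), F.IsHomogeneous d → ξ 0 = 1 →
        aeval ξ F = 0 → ev L d (map (algebraMap L K') F) ξ Δ ≠ 0 →
          degree L ξ ≤ α * genus L K' := by
  obtain ⟨p, hp, hp'⟩ := Nat.exists_infinite_primes
    (bd (Fin (r + 1)) (Option (Option (Mon (Fin (r + 1)) d ⊕ Fin (r + 1)))) + d + 1)
  let F : Option (Option (Mon (Fin (r + 1)) d ⊕ Fin (r + 1))) → MvPolynomial (Fin (r + 1)) L :=
    fun j => map (algebraMap ℤ L) (fam d p (pert _ d) j)
  have hF : ∀ j, (F j).IsHomogeneous d := fun j => (fam_hom p (pert_hom _ d) j).map _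
  have h0 : eval (Pi.single 0 1) (F none) ≠ 0 := by
    rw [← coe_aeval_eq_eval, RingHom.coe_coe, aeval_map_algebraMap]
    exact fam_single (m := pert (Fin (r + 1)) d) (j := none) (by omega) p rfl L 0
  obtain ⟨α, Δ₀, hΔ, hLV⟩ := fam_lv F hF hd le_rfl h0 fun E _ _ x s hx hs h1 h2 => by
    have : CharZero E := charZero_of_injective_algebraMap (algebraMap L E).injective
    simp only [F, pderiv_map, aeval_map_algebraMap] at h1 h2
    exact fam_smooth hp' (by omega) (Nat.succ_pos _) hp (pert_hom _ d) E hx hs h1 h2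
  have ec : ∀ (a : Fin r ⊕ (Mon (Fin (r + 1)) d ⊕ Fin (r + 1)) → L) (G : MvPolynomial _ L),
      eval a (aeval (Fin.cons 1 fun i => X (inl i) : Fin (r + 1) → MvPolynomial _ L) G) =
        eval (Fin.cons 1 fun i => a (inl i) : Fin (r + 1) → L) G := fun a G => by
    rw [← coe_aeval_eq_eval, ← coe_aeval_eq_eval, RingHom.coe_coe, RingHom.coe_coe,
      comp_aeval_apply]
    congr 2
    funext i
    refine Fin.cases ?_ (fun i => ?_) i <;> simp
  obtain ⟨a, ha⟩ : ∃ a, eval a (Δ₀ *
      aeval (Fin.cons 1 fun i => X (inl i) : Fin (r + 1) → MvPolynomial _ L) (F none)) ≠ 0 := by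
    by_contra hc
    push Not at hc
    refine mul_ne_zero hΔ (fun e => h0 ?_) (MvPolynomial.funext fun a => (hc a).trans
      (map_zero _).symm)
    have := ec 0 (F none)
    rw [e, map_zero] at this
    rw [this]
    congr 2
    funext i
    refine Fin.cases ?_ (fun i => ?_) i <;> simp
  rw [map_mul, ec] at ha
  set p₁ : Fin (r + 1) → L := Fin.cons 1 fun i => a (inl i)
  let c₀ : L := -(eval p₁ (F (some none)) + ∑ j, a (inr j) * eval p₁ (F (some (some j)))) /
    eval p₁ (F none)
  let F₁ := c₀ • F none + (F (some none) + ∑ j, a (inr j) • F (some (some j)))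
  have hs : ∀ (c : L) j, (c • F j).IsHomogeneous d := fun c j => by
    rw [smul_eq_C_mul]
    exact (hF j).C_mul c
  have h1 : F₁.IsHomogeneous d := (hs _ _).add ((hF _).add (.sum _ _ _ fun j _ => hs _ _))
  choose l hl using fun μ : Mon (Fin (r + 1)) d => (Submodule.mem_span_range_iff_exists_fun L).1
    (fam_span (d := d) hp'.pos (m := pert (Fin (r + 1)) d) (fun j => some (some j))
      (fun _ _ h => by simpa using h) inr inr_injective (fun _ => rfl) L (inl μ))
  let c : MvPolynomial (Fin (r + 1)) L → _ → L := fun G j =>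
    a (inr j) + ∑ μ, (coeff μ.1 G - coeff μ.1 F₁) * l μ j
  have hc : ∀ G : MvPolynomial (Fin (r + 1)) L, G.IsHomogeneous d →
      c₀ • F none + (F (some none) + ∑ j, c G j • F (some (some j))) = G := fun G hG => by
    have e1 : ∑ j, (∑ μ, (coeff μ.1 G - coeff μ.1 F₁) * l μ j) • F (some (some j)) = G - F₁ := by
      simp only [Finset.sum_smul, mul_smul]
      rw [Finset.sum_comm, ← frm_coeff (hG.sub h1), frm]
      refine Finset.sum_congr rfl fun μ _ => ?_
      rw [← Finset.smul_sum, show ∑ j, l μ j • F (some (some j)) = _ from hl μ]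
      simp [pert, smul_monomial]
    simp only [c, add_smul, Finset.sum_add_distrib, e1, F₁]
    ring
  have key : ∀ (K' : Type u) [Field K'] [Algebra L K'] (G : MvPolynomial (Fin (r + 1)) L)
      (ξ : Fin (r + 1) → K'), ev L d (map (algebraMap L K') G) ξ
        (aeval (Sum.elim (fun i => X (inr i.succ)) fun j => C (a (inr j)) +
          ∑ μ, (X (inl μ) - C (coeff μ.1 F₁)) * C (l μ j)) Δ₀ *
            aeval (fun i => X (inr i)) (F none)) =
      aeval (Sum.elim (fun i => ξ i.succ) fun j => algebraMap L K' (c G j)) Δ₀ *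
        aeval ξ (F none) := fun K' _ _ G ξ => by
    rw [map_mul, comp_aeval_apply, comp_aeval_apply]
    congr 3
    · funext v
      cases v <;> simp [c, coeff_map]
    · funext i
      simp
  have := key L F₁ p₁
  rw [Algebra.algebraMap_self, map_id] at this
  refine ⟨α, _, F₁, p₁, h1, ?_, rfl, this.trans_ne ?_, fun K' _ _ _ G ξ hG b0 b1 b2 => ?_⟩
  rotate_left 2
  · rw [key] at b2
    refine hLV K' ξ (fun j => j.elim c₀ fun j => j.elim 1 (c G)) b0 rfl ?_
      (right_ne_zero_of_mul b2) (left_ne_zero_of_mul b2)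
    have := congrArg (aeval ξ) (hc G hG)
    rw [b1] at this
    rw [← this, Fintype.sum_option, Fintype.sum_option]
    simp only [map_add, map_sum, map_smul, Algebra.smul_def (A := K'), Option.elim, map_one,
      one_mul]
  · simp only [F₁, c₀, map_add, map_sum, smul_eval]
    rw [div_mul_cancel₀ _ (right_ne_zero_of_mul ha), neg_add_cancel]
  · rwa [show (Sum.elim (fun i => p₁ i.succ) fun j => RingHom.id L (c F₁ j)) = a from by
      funext v
      cases v <;> simp [c, p₁]]

end Pool.Agent.P.MP_6f117a_ag.H
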